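import Mathlib
import Pool.Agent.H2.MC.Defs

set_option autoImplicit false

/-!
# Littlewood for all episturmian pairs (MP_0ea415): definitions

OUTLINE. `s` episturmian, `x, y` in its subshift, `f` a substitution of nonempty words of positive integers, `α` with the
partial quotients `f (x 0) f (x 1) …` and `β` with the mirror images of `f (y 0), f (y 1), …` (after preperiods), `c < 1/3`.
1. (EpA-EpE) There is a directive sequence `d`: at every level the letters different from `d t` are isolated by `d t` in the derived
   sequences `lvl d x t`, `lvl d y t` (derived: `z ↦ a z` inverted, `a = d t`).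
2. (BlkA, BlkB) Blocks `B_t z`, palindromic prefixes `P_t`: `P_t` and `B_t z P_t` are palindromes; `P_t = B_t z P_τ`, `τ` the last use
   of `z` before `t` (`d τ = z`), or `B_t z = P_t z` if `z` was not used.
3. (StepA, Desub, Rule) `x = S_t B_t(r_0) B_t(r_1) …`, `S_t` a nonempty suffix of `B_t X_t`; `(S_t, X_t)` changes only if `d t = X_t`,
   and then either stays or becomes `(S_t B_t(z), z)`, `z ≠ d t`. The same for `y` with `T_t`, `Y_t`.
4. (AliA, AliB) Mirrored pairs (`x = U W …`, `y = V W.reverse …`): `S_t, T_t, P_t`; if `d t = X_t ≠ Y_t` then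
   `[], T_t, S_t P_t`; if `d t = Y_t ≠ X_t` then `S_t, [], P_t T_t.reverse`; if `X_t = Y_t`, up to one letter `[], [], S_t … T_t.reverse`.
5. (WtM, Crit) `m u = log` of the continuant of the image of `u`, additive up to a constant. If the assertion fails, all mirrored
   pairs have `ρ m W ≤ m U + m V.reverse + K`, `ρ = (1-c)/(1+c) > 1/2`.
6. (WgA, SysOf, SysA-SysE, RealSeq) These inequalities are contradictory: late levels have `X_t ≠ Y_t`; the events `d t = X_t` and
   `d t = Y_t` finally alternate, always with a change of letter; in this regime the weights grow at most linearly and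
   exponentially in the number of events.
-/

namespace Pool.Agent.H17.EP

open Filter

variable {A : Type}

/-- The word of length `n` which the sequence `x` reads from the position `i` on. -/
def lwin (x : ℕ → A) (i n : ℕ) : List A := (List.range n).map (fun k => x (i + k))

/-- The word `u` is a factor of the sequence `s`. -/
def Fac (s : ℕ → A) (u : List A) : Prop := ∃ i, lwin s i u.length = u

/-- The word `u` is a prefix of the sequence `x`. -/
def Pre (u : List A) (x : ℕ → A) : Prop := lwin x 0 u.length = u

/-- The word `u` is left special: it has two extensions to the left by one letter which are factors. -/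
def LS (s : ℕ → A) (u : List A) : Prop := ∃ b c : A, b ≠ c ∧ Fac s (b :: u) ∧ Fac s (c :: u)

/-- Episturmian sequences (Droubay–Justin–Pirillo): the reverse of every factor is a factor, and there is at
most one left special factor of each length. -/
def Epi (s : ℕ → A) : Prop :=
  (∀ u : List A, Fac s u → Fac s u.reverse) ∧
    ∀ u v : List A, u.length = v.length → LS s u → LS s v → u = v

/-- The letters different from `a` are isolated in `x`. -/
def Iso1 (a : A) (x : ℕ → A) : Prop := ∀ j, x j = a ∨ x (j + 1) = a

open Classical in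
/-- The first index `≥ j` which is kept: an index `j` is dropped if `x j = a` and `x (j+1) ≠ a`. -/
noncomputable def nxt (a : A) (x : ℕ → A) (j : ℕ) : ℕ := if x j = a ∧ x (j + 1) ≠ a then j + 1 else j

/-- The `n`-th kept index. -/
noncomputable def phi (a : A) (x : ℕ → A) : ℕ → ℕ
  | 0 => nxt a x 0
  | n + 1 => nxt a x (phi a x n + 1)

/-- The derived sequence: the kept letters. -/
noncomputable def step (a : A) (x : ℕ → A) : ℕ → A := fun n => x (phi a x n)

/-- The derived sequence of level `t` for the directive sequence `d`. -/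
noncomputable def lvl (d : ℕ → A) (x : ℕ → A) : ℕ → ℕ → A
  | 0 => x
  | t + 1 => step (d t) (lvl d x t)

/-- At every level `t` the letters different from `d t` are isolated. -/
def Iso (d x : ℕ → A) : Prop := ∀ t, Iso1 (d t) (lvl d x t)

open Classical in
/-- The block of level `t` of the letter `z`. -/
noncomputable def blk (d : ℕ → A) : ℕ → A → List A
  | 0, z => [z]
  | t + 1, z => if z = d t then blk d t z else blk d t (d t) ++ blk d t z

/-- The palindromic prefix of level `t`. -/
noncomputable def pal (d : ℕ → A) : ℕ → List A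
  | 0 => []
  | t + 1 => blk d t (d t) ++ pal d t

open Classical in
/-- The part of the sequence `x` which precedes the complete blocks of level `t`. -/
noncomputable def suf (d x : ℕ → A) : ℕ → List A
  | 0 => [x 0]
  | t + 1 => if lvl d x t 0 = d t ∧ lvl d x t 1 ≠ d t then suf d x t ++ blk d t (lvl d x t 1) else suf d x t

/-- A weight on words: additive up to the constant `K`. -/
structure Wgt (m : List A → ℝ) (K : ℝ) : Prop where
  K0 : 0 ≤ K
  nn : ∀ u, 0 ≤ m u
  sup : ∀ u v, m u + m v ≤ m (u ++ v)
  sub : ∀ u v, m (u ++ v) ≤ m u + m v + K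
  gr : ∀ u : List A, (u.length : ℝ) ≤ 3 * m u + 1
  let1 : ∀ z, m [z] ≤ K

open Classical in
/-- The weight of the palindromic prefix of the level of the last use of the letter `z` before the level `t`
(`0` if there is no such use). -/
noncomputable def lastw (m : List A → ℝ) (d : ℕ → A) : ℕ → A → ℝ
  | 0, _ => 0
  | t + 1, z => if d t = z then m (pal d t) else lastw m d t z

/-- The alignment inequality: a mirrored pair of words is never long compared to the words which precede it. -/
def Al (m : List A → ℝ) (ρ K : ℝ) (x y : ℕ → A) : Prop :=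
  ∀ U V W : List A, Pre (U ++ W) x → Pre (V ++ W.reverse) y → ρ * m W ≤ m U + m V.reverse + K

/-- The dynamical system of the two sides (`i : Bool`): `Z i t` is the letter of the side `i` at the level
`t`, `w i t` the weight of its first part, `p t` the weight of the palindromic prefix of level `t`, `L t z` the
weight of the block of `z`, `q t z` the weight of the prefix of the last use. -/
structure Sys (d : ℕ → A) (Z : Bool → ℕ → A) (w : Bool → ℕ → ℝ) (p : ℕ → ℝ) (L q : ℕ → A → ℝ)
    (K ρ : ℝ) : Prop where
  rlo : 1 / 2 < ρ
  rhi : ρ ≤ 1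
  K0 : 0 ≤ K
  p0 : ∀ t, 0 ≤ p t
  pInf : Tendsto p atTop atTop
  pStep : ∀ t, p t + L t (d t) ≤ p (t + 1)
  L0 : ∀ t z, 0 ≤ L t z
  LUp : ∀ t z, L t z ≤ p t - q t z + K
  LLo : ∀ t z, p t - q t z - K ≤ L t z
  q0 : ∀ t z, 0 ≤ q t z
  qCon : ∀ t z, d t ≠ z → q (t + 1) z = q t z
  w0 : ∀ i t, 0 ≤ w i t
  wLe : ∀ i t, w i t ≤ L t (Z i t) + K
  wNo : ∀ i t, d t ≠ Z i t → w i (t + 1) = w i t ∧ Z i (t + 1) = Z i t
  wEv : ∀ i t, d t = Z i t → (w i (t + 1) = w i t ∧ Z i (t + 1) = Z i t) ∨
    (Z i (t + 1) ≠ Z i t ∧ w i t ≤ w i (t + 1) ∧ w i (t + 1) ≤ w i t + L t (Z i (t + 1)) + K)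
  A0 : ∀ t, ρ * p t ≤ w true t + w false t + K
  A1 : ∀ i t, d t = Z i t → Z i t ≠ Z (!i) t → ρ * (p t + w i t) ≤ w (!i) t + K
  A2 : ∀ t, Z true t = Z false t → w true t + w false t ≤ K

end Pool.Agent.H17.EP
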