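import Mathlib
import Pool.Agent.H17.EP.Defs

set_option autoImplicit false

/-!
# Module WinL (90 lines): windows, prefixes, factors

PROOFS. `lwin` is a `List.range` map (compare `Pool/Agent/H2/MC/Words.lean`, the same lemmas for `ℕ`).
* `pre_iff`, `pre_of_prefix`: `Pre u x` means `u[i] = x i` for `i < u.length`; a prefix of a prefix is a prefix
  (`lwin_add` and `List.append_inj`).
* `pre_unique`: two prefixes of the same length are equal.
* `pre_lwin`: `lwin x 0 n` is a prefix (its length is `n`).
* `pre_append_iff`: `Pre (u ++ v) x ↔ Pre u x ∧ lwin x u.length v.length = v`: `lwin_add` with `i = 0`.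
* `fac_lwin`: every window is a factor. `fac_infix`: a factor of a factor is a factor: `u = p ++ v ++ q` occurs at `i`, so
  `v` occurs at `i + p.length`.
* `flatMap_len`: if `f z ≠ []` for all `z` then `n ≤ ((lwin x i n).flatMap f).length` (induction on `n` with `lwin_succ`).
-/

namespace Pool.Agent.H17.EP

variable {A : Type}

@[simp] lemma lwin_length (x : ℕ → A) (i n : ℕ) : (lwin x i n).length = n := by simp [lwin]

@[simp] lemma lwin_zero (x : ℕ → A) (i : ℕ) : lwin x i 0 = [] := rfl

lemma lwin_succ (x : ℕ → A) (i n : ℕ) : lwin x i (n + 1) = lwin x i n ++ [x (i + n)] := by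
  simp [lwin, List.range_succ]

lemma lwin_succ' (x : ℕ → A) (i n : ℕ) : lwin x i (n + 1) = x i :: lwin x (i + 1) n := by
  simp only [lwin, List.range_succ_eq_map, List.map_cons, List.map_map, Nat.add_zero]
  congr 1
  refine List.map_congr_left fun a _ => ?_
  simp only [Function.comp]
  congr 1
  omega

lemma lwin_add (x : ℕ → A) (i m n : ℕ) : lwin x i (m + n) = lwin x i m ++ lwin x (i + m) n := by
  induction n with
  | zero => simp
  | succ n ih => rw [← Nat.add_assoc, lwin_succ, ih, lwin_succ, List.append_assoc, Nat.add_assoc]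

lemma lwin_one (x : ℕ → A) (i : ℕ) : lwin x i 1 = [x i] := by
  simp [lwin]

lemma lwin_getElem (x : ℕ → A) (i n t : ℕ) (h : t < (lwin x i n).length) : (lwin x i n)[t] = x (i + t) := by
  simp [lwin]

lemma pre_nil (x : ℕ → A) : Pre [] x := by
  simp [Pre]

lemma pre_of_prefix {u v : List A} {x : ℕ → A} (h : Pre v x) (huv : u <+: v) : Pre u x := by
  obtain ⟨w, rfl⟩ := huv
  unfold Pre at h ⊢
  rw [List.length_append, lwin_add] at h
  exact (List.append_inj h (by simp)).1

lemma pre_lwin (x : ℕ → A) (n : ℕ) : Pre (lwin x 0 n) x := by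
  simp [Pre]

lemma pre_append_iff (u v : List A) (x : ℕ → A) : Pre (u ++ v) x ↔ Pre u x ∧ lwin x u.length v.length = v := by
  unfold Pre
  rw [List.length_append, lwin_add, Nat.zero_add]
  constructor
  · intro h
    exact List.append_inj h (by simp)
  · rintro ⟨h1, h2⟩
    rw [h1, h2]

lemma fac_lwin (x : ℕ → A) (i n : ℕ) : Fac x (lwin x i n) := by
  exact ⟨i, by simp⟩

lemma fac_infix {u v : List A} {x : ℕ → A} (h : Fac x v) (huv : u <:+: v) : Fac x u := by
  obtain ⟨p, q, rfl⟩ := huv
  obtain ⟨i, hi⟩ := h
  rw [List.length_append, List.length_append, lwin_add, lwin_add] at hi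
  have h1 := (List.append_inj hi (by simp)).1
  exact ⟨i + p.length, (List.append_inj h1 (by simp)).2⟩

lemma flatMap_len {B : Type} (x : ℕ → A) (f : A → List B) (hf : ∀ z, f z ≠ []) (i n : ℕ) :
    n ≤ ((lwin x i n).flatMap f).length := by
  induction n with
  | zero => simp
  | succ n ih =>
    rw [lwin_succ, List.flatMap_append, List.length_append]
    have h1 : 1 ≤ (([x (i + n)] : List A).flatMap f).length := by
      simp only [List.flatMap_cons, List.flatMap_nil, List.append_nil]
      exact List.length_pos_iff.2 (hf _)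
    omega

end Pool.Agent.H17.EP
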