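import Mathlib
import Pool.Agent.H17.EP.WinL
import Pool.Agent.H2.MC.Wt

set_option autoImplicit false

/-!
# Module WtM (60 lines): the weight of a word of letters is the logarithm of the continuant of its image

`H2/MC/Wt.lean` (lemmas `wt_nonneg`, `wt_append_ge`, `wt_append_le`, `wt_growth`, `wt_reverse`).
PROOFS.
* `wgt_wt`: `K = M + log 2`, `M ≥ 0` a bound for `wt (f z)`. `sup`, `sub`: `List.flatMap_append`. `gr`: `u.length ≤ (u.flatMap f).length`
  (induction, `f z ≠ []`), `wt_growth`: `(l - 1)/2 · log 2 ≤ wt`, `log 2 > 2/3` (`Real.log_two_gt_d9`), `wt ≥ 0`: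
  `l - 1 ≤ 2 wt / log 2 ≤ 3 wt`. `let1`: `[z].flatMap f = f z` (`List.flatMap_singleton`).
* `bdd_wt`: the range of `f` is finite, so the image of it under `wt` is finite, hence bounded above; take the maximum with `0`.
* `flatMap_rev`: `(W.reverse).flatMap (fun z => (f z).reverse) = (W.flatMap f).reverse`: induction on `W` (`List.reverse_cons`,
  `List.flatMap_append`, `List.flatMap_cons`, `List.reverse_append`).
-/

namespace Pool.Agent.H17.EP

open Pool.Agent.H2.MC

variable {A : Type} {f : A → List ℕ}

lemma bdd_wt (hf : (Set.range f).Finite) : ∃ M : ℝ, 0 ≤ M ∧ ∀ z, wt (f z) ≤ M := by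
  obtain ⟨M, hM⟩ := (hf.image wt).bddAbove
  exact ⟨max M 0, le_max_right _ _, fun z => (hM ⟨f z, ⟨z, rfl⟩, rfl⟩).trans (le_max_left _ _)⟩

private lemma len_le (hf0 : ∀ z, f z ≠ []) (u : List A) : u.length ≤ (u.flatMap f).length := by
  induction u with
  | nil => simp
  | cons z u ih =>
    have h := List.length_pos_iff.2 (hf0 z)
    rw [List.flatMap_cons, List.length_append, List.length_cons]
    omega

lemma wgt_wt (hf0 : ∀ z, f z ≠ []) {M : ℝ} (hM : 0 ≤ M) (hf : ∀ z, wt (f z) ≤ M) :
    Wgt (fun u : List A => wt (u.flatMap f)) (M + Real.log 2) := by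
  have hl : 0.6931471803 < Real.log 2 := Real.log_two_gt_d9
  refine ⟨by linarith, fun u => wt_nonneg _, fun u v => ?_, fun u v => ?_, fun u => ?_, fun z => ?_⟩
  · rw [List.flatMap_append]
    exact wt_append_ge _ _
  · rw [List.flatMap_append]
    have := wt_append_le (u.flatMap f) (v.flatMap f)
    linarith
  · have h1 := wt_growth (u.flatMap f)
    have h2 : (u.length : ℝ) ≤ ((u.flatMap f).length : ℝ) := by exact_mod_cast len_le hf0 u
    have h3 := wt_nonneg (u.flatMap f)
    rcases le_or_gt ((u.flatMap f).length : ℝ) 1 with h4 | h4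
    · linarith
    · have h5 : (((u.flatMap f).length : ℝ) - 1) / 2 * (2 / 3) ≤
          (((u.flatMap f).length : ℝ) - 1) / 2 * Real.log 2 :=
        mul_le_mul_of_nonneg_left (by linarith) (by linarith)
      linarith
  · rw [List.flatMap_singleton]
    have := hf z
    linarith

lemma flatMap_rev (W : List A) : (W.reverse).flatMap (fun z => (f z).reverse) = (W.flatMap f).reverse := by
  induction W with
  | nil => rfl
  | cons z W ih =>
    rw [List.reverse_cons, List.flatMap_append, ih, List.flatMap_singleton, List.flatMap_cons,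
      List.reverse_append]

end Pool.Agent.H17.EP
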