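import Mathlib
import Pool.Agent.H17.EP.WtM
import Pool.Agent.H2.MC.DioA

set_option autoImplicit false

/-!
# Module Crit (140 lines): if Littlewood with power gain fails, the alignment inequality holds

`Reads b i f x`: from the index `i` on the sequence `b` of integers is the image `f (x 0) f (x 1) …`.
PROOFS.
* `reads_pre`: `Pre (U ++ W) x` and `Reads b i f x` give, with `k = (U.flatMap f).length`, `l = (W.flatMap f).length`:
  `win b i k = U.flatMap f` and `win b (i + k) l = W.flatMap f`: `Reads` at `n = (U ++ W).length`, `lwin x 0 n = U ++ W`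
  (`Pre`), `List.flatMap_append`, `win_add`, `List.append_inj` (lengths `win_length`).
* `crit_one` (one pair of words): let `k = (U.flatMap f).length`, `l = (W.flatMap f).length`, `k' = (V.flatMap g).length`
  with `g z = (f z).reverse`. By `reads_pre`: `win (pq α) (i0+k) l = W.flatMap f`; for `β`, with the words `V`, `W.reverse` and `g`:
  `win (pq β) (j0+k') l = (W.reverse).flatMap g = (W.flatMap f).reverse` (`flatMap_rev`; same length `l`), so
  `mir (pq β) (j0+k') l = W.flatMap f`. `mirror` (file H2/MC/DioA) with `i = i0 + k`, `j = j0 + k'` gives `q`: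
  `siz W' ≤ q ≤ 8 siz U' siz V' siz W'`, `q ‖qα‖ ‖qβ‖ ≤ 32 siz U' siz V' / siz W'`, `W' = W.flatMap f`, `U' = win (pq α) 0 (i0+k)
  = win (pq α) 0 i0 ++ U.flatMap f`, `V' = win (pq β) 0 j0 ++ V.flatMap g` (`win_add`). In logarithms (`wt_eq`, all letters positive):
  `log siz U' ≤ wt (win (pq α) 0 i0) + wt (U.flatMap f) + log 2`, the same for `V'`, and `V.flatMap g = (V.reverse.flatMap f).reverse`
  (`flatMap_rev` with `V.reverse`), so `wt (V.flatMap g) = wt (V.reverse.flatMap f)` (`wt_reverse`).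
  The statement of `crit_one` is exactly this in logarithmic form, with `C0 = wt (win (pq α) 0 i0) + wt (win (pq β) 0 j0) + 2 log 2`.
* `al_of_fail`: failure: there are `ε > 0`, `N` with `ε ≤ q^(1+c) ‖qα‖ ‖qβ‖` for all `q ≥ N`, `q > 0` (`push Not`). Let `U, V, W` be a pair,
  `q` from `crit_one`, `μ = wt (W.flatMap f)`, `ν = wt (U…) + wt (V.reverse…) + C0`. If `q < N`: `μ ≤ log q ≤ log N`
  (`q ≥ exp μ ≥ 1`), so `ρ μ ≤ log (max N 1)`. If `q ≥ N`: `ε ≤ q^c · (q ‖qα‖ ‖qβ‖) ≤ (8 exp(ν + μ))^c · 32 exp(ν - μ)` (`c ≥ 0`,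
  `Real.rpow_add`/`rpow_one`), take logarithms: `log ε ≤ c log 8 + log 32 + (1+c) ν - (1-c) μ`, divide by `1 + c`:
  `ρ μ ≤ ν + (c log 8 + log 32 - log ε)/(1+c)`. So `K2 = C0 + |c log 8 + log 32 - log ε| + log (max N 1)` works.
-/

namespace Pool.Agent.H17.EP

open Pool.Agent.H2.MC Pool.Agent.H2.Sturm

variable {A : Type} {f : A → List ℕ}

/-- From the index `i` on the sequence `b` is the product `f (x 0) f (x 1) f (x 2) …`. -/
def Reads (b : ℕ → ℕ) (i : ℕ) (f : A → List ℕ) (x : ℕ → A) : Prop :=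
  ∀ n, win b i ((lwin x 0 n).flatMap f).length = (lwin x 0 n).flatMap f

lemma reads_pre {b : ℕ → ℕ} {i : ℕ} {x : ℕ → A} (h : Reads b i f x) {U W : List A} (hp : Pre (U ++ W) x) :
    win b i (U.flatMap f).length = U.flatMap f ∧
      win b (i + (U.flatMap f).length) (W.flatMap f).length = W.flatMap f := by
  have h1 := h (U ++ W).length
  unfold Pre at hp
  rw [hp, List.flatMap_append, List.length_append, win_add] at h1
  exact List.append_inj h1 (win_length _ _ _)

lemma crit_one {α β : ℝ} (hα0 : ∀ n, 0 < pq α n) (hβ0 : ∀ n, 0 < pq β n) {i0 j0 : ℕ} {x y : ℕ → A}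
    (hα : Reads (pq α) i0 f x) (hβ : Reads (pq β) j0 (fun z => (f z).reverse) y) {U V W : List A}
    (hU : Pre (U ++ W) x) (hV : Pre (V ++ W.reverse) y) :
    ∃ q : ℕ, 0 < q ∧ wt (W.flatMap f) ≤ Real.log q ∧
      Real.log q ≤ Real.log 8 + (wt (U.flatMap f) + wt (V.reverse.flatMap f) +
        (wt (win (pq α) 0 i0) + wt (win (pq β) 0 j0) + 2 * Real.log 2)) + wt (W.flatMap f) ∧
      (q : ℝ) * |(q : ℝ) * α - (round ((q : ℝ) * α) : ℝ)| * |(q : ℝ) * β - (round ((q : ℝ) * β) : ℝ)| ≤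
        32 * Real.exp ((wt (U.flatMap f) + wt (V.reverse.flatMap f) +
          (wt (win (pq α) 0 i0) + wt (win (pq β) 0 j0) + 2 * Real.log 2)) - wt (W.flatMap f)) := by
  obtain ⟨a1, a2⟩ := reads_pre hα hU
  obtain ⟨b1, b2⟩ := reads_pre hβ hV
  rw [flatMap_rev, List.length_reverse] at b2
  have hVr : wt (V.flatMap fun z => (f z).reverse) = wt (V.reverse.flatMap f) := by
    have := flatMap_rev (f := f) V.reverse
    rw [List.reverse_reverse] at this
    rw [this, wt_reverse]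
  have hm : win (pq α) (i0 + (U.flatMap f).length) (W.flatMap f).length =
      mir (pq β) (j0 + (V.flatMap fun z => (f z).reverse).length) (W.flatMap f).length := by
    rw [a2, mir, b2, List.reverse_reverse]
  obtain ⟨q, q1, q2, q3⟩ := mirror hα0 hβ0 hm
  have hWpos : ∀ z ∈ W.flatMap f, 0 < z := by
    rw [← a2]
    exact win_pos hα0 _ _
  have hU'pos := win_pos hα0 0 (i0 + (U.flatMap f).length)
  have hV'pos := win_pos hβ0 0 (j0 + (V.flatMap fun z => (f z).reverse).length)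
  rw [a2] at q1 q2 q3
  have eU : win (pq α) 0 (i0 + (U.flatMap f).length) = win (pq α) 0 i0 ++ U.flatMap f := by
    rw [win_add, Nat.zero_add, a1]
  have eV : win (pq β) 0 (j0 + (V.flatMap fun z => (f z).reverse).length) =
      win (pq β) 0 j0 ++ V.flatMap fun z => (f z).reverse := by
    rw [win_add, Nat.zero_add, b1]
  have wU : Real.log (siz (win (pq α) 0 (i0 + (U.flatMap f).length))) ≤
      wt (win (pq α) 0 i0) + wt (U.flatMap f) + Real.log 2 := by
    rw [← wt_eq hU'pos, eU]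
    exact wt_append_le _ _
  have wV : Real.log (siz (win (pq β) 0 (j0 + (V.flatMap fun z => (f z).reverse).length))) ≤
      wt (win (pq β) 0 j0) + wt (V.reverse.flatMap f) + Real.log 2 := by
    rw [← wt_eq hV'pos, eV, ← hVr]
    exact wt_append_le _ _
  have pU : (0 : ℝ) < siz (win (pq α) 0 (i0 + (U.flatMap f).length)) := by
    exact_mod_cast siz_pos hU'pos
  have pV : (0 : ℝ) < siz (win (pq β) 0 (j0 + (V.flatMap fun z => (f z).reverse).length)) := by
    exact_mod_cast siz_pos hV'pos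
  have pW : (0 : ℝ) < siz (W.flatMap f) := by exact_mod_cast siz_pos hWpos
  generalize (siz (win (pq α) 0 (i0 + (U.flatMap f).length))) = sU at *
  generalize (siz (win (pq β) 0 (j0 + (V.flatMap fun z => (f z).reverse).length))) = sV at *
  have hwW := wt_eq hWpos
  have hq1 : (siz (W.flatMap f) : ℝ) ≤ q := by exact_mod_cast q1
  have hq0 : (0 : ℝ) < q := lt_of_lt_of_le pW hq1
  refine ⟨q, by exact_mod_cast hq0, ?_, ?_, ?_⟩
  · rw [hwW]
    exact Real.log_le_log pW hq1
  · have h2 : (q : ℝ) ≤ 8 * ((sU : ℝ) * sV * siz (W.flatMap f)) := by exact_mod_cast q2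
    have h3 := Real.log_le_log hq0 h2
    rw [Real.log_mul (by norm_num) (by positivity), Real.log_mul (by positivity) pW.ne',
      Real.log_mul pU.ne' pV.ne'] at h3
    rw [hwW]
    linarith
  · have h4 : (q : ℝ) * |(q : ℝ) * α - (round ((q : ℝ) * α) : ℝ)| *
        |(q : ℝ) * β - (round ((q : ℝ) * β) : ℝ)| ≤ 32 * (sU : ℝ) * sV / siz (W.flatMap f) := q3
    refine h4.trans ?_
    have h5 : 32 * (sU : ℝ) * sV / siz (W.flatMap f) =
        32 * Real.exp (Real.log sU + Real.log sV - Real.log (siz (W.flatMap f))) := by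
      rw [Real.exp_sub, Real.exp_add, Real.exp_log pU, Real.exp_log pV, Real.exp_log pW]
      ring
    rw [h5]
    refine mul_le_mul_of_nonneg_left (Real.exp_le_exp.2 ?_) (by norm_num)
    rw [hwW]
    linarith

lemma al_of_fail {α β : ℝ} (hα0 : ∀ n, 0 < pq α n) (hβ0 : ∀ n, 0 < pq β n) {i0 j0 : ℕ} {x y : ℕ → A}
    (hα : Reads (pq α) i0 f x) (hβ : Reads (pq β) j0 (fun z => (f z).reverse) y) {c : ℝ} (hc0 : 0 ≤ c)
    (hc1 : c < 1) (hfail : ¬ PowerLittlewood c α β) :
    ∃ K2 : ℝ, 0 ≤ K2 ∧ Al (fun u : List A => wt (u.flatMap f)) ((1 - c) / (1 + c)) K2 x y := by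
  unfold PowerLittlewood at hfail
  push Not at hfail
  obtain ⟨ε, hε, N, hN⟩ := hfail
  obtain ⟨C0, hC0⟩ : ∃ C0 : ℝ, C0 = wt (win (pq α) 0 i0) + wt (win (pq β) 0 j0) +
    2 * Real.log 2 := ⟨_, rfl⟩
  have hC0nn : 0 ≤ C0 := by
    have h1 := wt_nonneg (win (pq α) 0 i0)
    have h2 := wt_nonneg (win (pq β) 0 j0)
    have h3 : 0 ≤ Real.log 2 := Real.log_nonneg (by norm_num)
    linarith
  obtain ⟨E, hE⟩ : ∃ E : ℝ, E = c * Real.log 8 + Real.log 32 - Real.log ε := ⟨_, rfl⟩
  have hlogN : 0 ≤ Real.log (max (N : ℝ) 1) := Real.log_nonneg (le_max_right _ _)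
  have hc2 : 0 < 1 + c := by linarith
  refine ⟨C0 + |E| + Real.log (max (N : ℝ) 1), by positivity, ?_⟩
  intro U V W hU hV
  obtain ⟨q, hq, h1, h2, h3⟩ := crit_one hα0 hβ0 hα hβ hU hV
  rw [← hC0] at h2 h3
  simp only
  obtain ⟨μ, hμ⟩ : ∃ μ : ℝ, μ = wt (W.flatMap f) := ⟨_, rfl⟩
  obtain ⟨a, ha⟩ : ∃ a : ℝ, a = wt (U.flatMap f) := ⟨_, rfl⟩
  obtain ⟨b, hb⟩ : ∃ b : ℝ, b = wt (V.reverse.flatMap f) := ⟨_, rfl⟩
  have hμ0 : 0 ≤ μ := hμ ▸ wt_nonneg _
  have ha0 : 0 ≤ a := ha ▸ wt_nonneg _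
  have hb0 : 0 ≤ b := hb ▸ wt_nonneg _
  rw [← hμ, ← ha, ← hb] at h2 h3
  rw [← hμ] at h1
  rw [← hμ, ← ha, ← hb]
  have hq0 : (0 : ℝ) < q := by exact_mod_cast hq
  have hρ : (1 - c) / (1 + c) ≤ 1 := by rw [div_le_one hc2]; linarith
  rcases lt_or_ge q N with hqN | hqN
  · have h4 : Real.log q ≤ Real.log (max (N : ℝ) 1) :=
      Real.log_le_log hq0 (le_trans (by exact_mod_cast hqN.le) (le_max_left _ _))
    have h5 : (1 - c) / (1 + c) * μ ≤ 1 * μ := mul_le_mul_of_nonneg_right hρ hμ0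
    have h6 := abs_nonneg E
    linarith
  · have h4 := hN q hqN hq
    have h5 : (q : ℝ) ^ (1 + c) * |(q : ℝ) * α - (round ((q : ℝ) * α) : ℝ)|
        * |(q : ℝ) * β - (round ((q : ℝ) * β) : ℝ)| = (q : ℝ) ^ c *
        ((q : ℝ) * |(q : ℝ) * α - (round ((q : ℝ) * α) : ℝ)| *
          |(q : ℝ) * β - (round ((q : ℝ) * β) : ℝ)|) := by
      rw [Real.rpow_add hq0, Real.rpow_one]
      ring
    rw [h5] at h4
    have h6 : ε ≤ (q : ℝ) ^ c * (32 * Real.exp (a + b + C0 - μ)) :=
      h4.trans (mul_le_mul_of_nonneg_left h3 (Real.rpow_nonneg hq0.le c))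
    have h7 := Real.log_le_log hε h6
    rw [Real.log_mul (Real.rpow_pos_of_pos hq0 c).ne' (by positivity),
      Real.log_mul (by norm_num) (Real.exp_pos _).ne', Real.log_exp, Real.log_rpow hq0] at h7
    have h8 : c * Real.log q ≤ c * (Real.log 8 + (a + b + C0) + μ) :=
      mul_le_mul_of_nonneg_left h2 hc0
    have h9 : (1 - c) * μ ≤ (1 + c) * (a + b + C0) + E := by
      rw [hE]
      linarith
    have h10 : (1 - c) / (1 + c) * μ ≤ (a + b + C0) + E / (1 + c) := by
      rw [div_mul_eq_mul_div, div_le_iff₀ hc2]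
      have : (a + b + C0 + E / (1 + c)) * (1 + c) = (1 + c) * (a + b + C0) + E := by
        field_simp
      rw [this]
      exact h9
    have h11 : E / (1 + c) ≤ |E| := by
      rw [div_le_iff₀ hc2]
      have := le_abs_self E
      have := abs_nonneg E
      nlinarith
    linarith

end Pool.Agent.H17.EP
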