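import Mathlib
import Pool.Agent.H17.EP.Defs

set_option autoImplicit false

/-!
# Module BlkA (70 lines): the blocks and the palindromic prefixes

PROOFS (induction on `t`, `z` universally quantified; abbreviate `B z = blk d t z`, `P = pal d t`, `a = d t`).
* `blk_ne`: level `t + 1`: unfold, `split_ifs`; an append of nonempty lists is nonempty.
* `blk_len`: from `blk_ne`.
* `pal_len`: `(pal d (t+1)).length = (B a).length + P.length ≥ 1 + t`.
* `pal_both`: both statements together by induction: `P.reverse = P` and `(B z ++ P).reverse = B z ++ P` for all `z`.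
  `t = 0`: `[]`, `[z]`. Step: `pal d (t+1) = B a ++ P` is a palindrome by the induction hypothesis for `z = a`.
  From `(B z ++ P).reverse = B z ++ P` and `P.reverse = P`: `P ++ (B z).reverse = B z ++ P` (*).
  For `z = a`: `blk d (t+1) a ++ pal d (t+1) = B a ++ (B a ++ P)`, its reverse is `(B a ++ P).reverse ++ (B a).reverse
  = B a ++ P ++ (B a).reverse = B a ++ (B a ++ P)` by (*).
  For `z ≠ a`: `blk d (t+1) z ++ pal d (t+1) = (B a ++ B z) ++ (B a ++ P)`, its reverse is
  `(B a ++ P).reverse ++ (B z).reverse ++ (B a).reverse = B a ++ (P ++ (B z).reverse) ++ (B a).reverse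
  = B a ++ B z ++ (P ++ (B a).reverse) = B a ++ B z ++ (B a ++ P)`.
-/

namespace Pool.Agent.H17.EP

variable {A : Type} {d : ℕ → A}

lemma blk_ne (t : ℕ) (z : A) : blk d t z ≠ [] := by
  induction t generalizing z with
  | zero => simp [blk]
  | succ t ih =>
    simp only [blk]
    split_ifs with h
    · exact ih z
    · intro h0
      exact ih z (List.append_eq_nil_iff.1 h0).2

lemma blk_len (t : ℕ) (z : A) : 1 ≤ (blk d t z).length :=
  List.length_pos_iff.2 (blk_ne t z)

lemma pal_len (t : ℕ) : t ≤ (pal d t).length := by
  induction t with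
  | zero => exact Nat.zero_le _
  | succ t ih =>
    have h := blk_len (d := d) t (d t)
    simp only [pal, List.length_append]
    omega

private lemma blk_self (t : ℕ) : blk d (t + 1) (d t) = blk d t (d t) := by
  simp only [blk, if_true]

private lemma blk_other (t : ℕ) (z : A) (h : z ≠ d t) : blk d (t + 1) z = blk d t (d t) ++ blk d t z := by
  simp only [blk, if_neg h]

lemma pal_both (t : ℕ) : (pal d t).reverse = pal d t ∧ ∀ z, (blk d t z ++ pal d t).reverse = blk d t z ++ pal d t := by
  induction t with
  | zero => exact ⟨rfl, fun z => rfl⟩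
  | succ t ih =>
    obtain ⟨hP, hB⟩ := ih
    have hpal : pal d (t + 1) = blk d t (d t) ++ pal d t := rfl
    have star : ∀ z, pal d t ++ (blk d t z).reverse = blk d t z ++ pal d t := by
      intro z
      have h := hB z
      rw [List.reverse_append, hP] at h
      exact h
    refine ⟨by rw [hpal]; exact hB (d t), ?_⟩
    intro z
    by_cases hz : z = d t
    · subst hz
      rw [blk_self, hpal, List.reverse_append, hB (d t), List.append_assoc, star (d t)]
    · rw [blk_other t z hz, hpal, List.reverse_append, hB (d t), List.reverse_append, List.append_assoc,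
        ← List.append_assoc (pal d t), star z, List.append_assoc, star (d t), List.append_assoc]

lemma pal_rev (t : ℕ) : (pal d t).reverse = pal d t := (pal_both t).1

/-- `B P = P B.reverse`. -/
lemma blk_pal (t : ℕ) (z : A) : blk d t z ++ pal d t = pal d t ++ (blk d t z).reverse := by
  rw [← (pal_both t).2 z, List.reverse_append, pal_rev]

end Pool.Agent.H17.EP
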