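import Mathlib
import Pool.Agent.H17.EP.WinL

set_option autoImplicit false

/-!
# Module StepA (100 lines): the kept indices

PROOFS.
* `nxt_kept`: unfold `nxt`. If `x j = a ∧ x (j+1) ≠ a` the value is `j + 1` and `x (j+1) ≠ a`, so it is kept; otherwise `j` is
  kept by assumption.
* `phi_kept`: `phi` is always a value of `nxt`.
* `nxt_bd`: by definition. `phi_succ_bd`: `phi (n+1) = nxt (phi n + 1)`. `phi_mono`, `phi_ge`: from it.
* `blocks_succ`: let `j = phi a x n` (kept), `f' z = if z = a then f z else f a ++ f z`. If `x (j+1) = a ∧ x (j+2) ≠ a` then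
  `phi (n+1) = j + 2` and `f' (x (j+2)) = f a ++ f (x (j+2)) = f (x (j+1)) ++ f (x (j+2))`, `lwin x (j+1) 2`. Otherwise
  `phi (n+1) = j + 1`; here `x (j+1) = a`: if not, isolation at `j` gives `x j = a`, so `j` would be dropped. So
  `f' (x (j+1)) = f a`.
* `blocks`: induction on `n`: `lwin (step a x) (m+1) (n+1) = lwin (step a x) (m+1) n ++ [x (phi (m+n+1))]` (`lwin_succ`),
  `List.flatMap_append`; `blocks_succ` for `m + n`; `lwin_add` to join `lwin x (phi m + 1) (phi (m+n) - phi m)` and
  `lwin x (phi (m+n) + 1) (phi (m+n+1) - phi (m+n))`.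
* `after_kept`: if `x (phi n) = a` then `x (phi n + 1) = a` because `phi n` is kept; otherwise by isolation.
-/

namespace Pool.Agent.H17.EP

variable {A : Type} {a : A} {x : ℕ → A}

lemma nxt_bd (j : ℕ) : j ≤ nxt a x j ∧ nxt a x j ≤ j + 1 := by
  unfold nxt
  split_ifs <;> omega

lemma nxt_kept (j : ℕ) : ¬ (x (nxt a x j) = a ∧ x (nxt a x j + 1) ≠ a) := by
  unfold nxt
  split_ifs with h
  · exact fun h1 => h.2 h1.1
  · exact h

lemma phi_kept (n : ℕ) : ¬ (x (phi a x n) = a ∧ x (phi a x n + 1) ≠ a) := by
  cases n with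
  | zero => exact nxt_kept 0
  | succ n => exact nxt_kept _

lemma phi_succ_bd (n : ℕ) : phi a x n + 1 ≤ phi a x (n + 1) ∧ phi a x (n + 1) ≤ phi a x n + 2 :=
  nxt_bd (phi a x n + 1)

lemma phi_mono {m n : ℕ} (h : m ≤ n) : phi a x m ≤ phi a x n := by
  induction n, h using Nat.le_induction with
  | base => exact le_rfl
  | succ n _ ih => exact ih.trans (le_trans (Nat.le_succ _) (phi_succ_bd n).1)

lemma phi_ge (n : ℕ) : n ≤ phi a x n := by
  induction n with
  | zero => exact Nat.zero_le _
  | succ n ih => exact (Nat.succ_le_succ ih).trans (phi_succ_bd n).1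

lemma after_kept (hx : Iso1 a x) (n : ℕ) : x (phi a x n + 1) = a := by
  by_contra h
  rcases hx (phi a x n) with h1 | h1
  · exact phi_kept n ⟨h1, h⟩
  · exact h h1

open Classical in
lemma blocks_succ {B : Type} (hx : Iso1 a x) (f : A → List B) (n : ℕ) :
    (if x (phi a x (n + 1)) = a then f (x (phi a x (n + 1))) else f a ++ f (x (phi a x (n + 1)))) =
      (lwin x (phi a x n + 1) (phi a x (n + 1) - phi a x n)).flatMap f := by
  have h0 := after_kept hx n
  have hdef : phi a x (n + 1) = nxt a x (phi a x n + 1) := rfl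
  unfold nxt at hdef
  split_ifs at hdef with h1
  · rw [hdef]
    have e1 : phi a x n + 1 + 1 - phi a x n = 2 := by omega
    rw [e1, if_neg h1.2]
    simp [lwin, List.range_succ, h0]
  · rw [hdef]
    have e1 : phi a x n + 1 - phi a x n = 1 := by omega
    rw [e1, if_pos h0]
    simp [lwin]

open Classical in
lemma blocks {B : Type} (hx : Iso1 a x) (f : A → List B) (m n : ℕ) :
    (lwin (step a x) (m + 1) n).flatMap (fun z => if z = a then f z else f a ++ f z) =
      (lwin x (phi a x m + 1) (phi a x (m + n) - phi a x m)).flatMap f := by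
  induction n with
  | zero => simp
  | succ n ih =>
    rw [lwin_succ, List.flatMap_append, ih]
    have h1 := blocks_succ hx f (m + n)
    have h2 : phi a x m ≤ phi a x (m + n) := phi_mono (by omega)
    have h3 : phi a x (m + n) ≤ phi a x (m + n + 1) := phi_mono (by omega)
    have e1 : phi a x (m + (n + 1)) - phi a x m =
        (phi a x (m + n) - phi a x m) + (phi a x (m + n + 1) - phi a x (m + n)) := by
      rw [← add_assoc]
      omega
    have e2 : phi a x m + 1 + (phi a x (m + n) - phi a x m) = phi a x (m + n) + 1 := by omega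
    rw [e1, lwin_add, e2, List.flatMap_append, ← h1]
    congr 1
    have e3 : step a x (m + 1 + n) = x (phi a x (m + n + 1)) := by
      unfold step
      congr 2
      omega
    simp only [List.flatMap_cons, List.flatMap_nil, List.append_nil, e3]

end Pool.Agent.H17.EP
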