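import Mathlib
import Pool.Agent.H17.EP.StepA
import Pool.Agent.H17.EP.BlkA

set_option autoImplicit false

/-!
# Module Desub (90 lines): the decomposition of a sequence into blocks of level `t`

PROOFS.
* `suf_ne`, `suf_suffix`: induction on `t`. `suf_suffix`: at `0`: `[x 0] <:+ [x 0]`. Step, `a = d t`, `ρ = lvl d x t`:
  if `ρ 0 = a ∧ ρ 1 ≠ a` then `lvl d x (t+1) 0 = ρ (phi a ρ 0) = ρ 1` (as `phi a ρ 0 = nxt a ρ 0 = 1`), and
  `blk d (t+1) (ρ 1) = blk d t a ++ blk d t (ρ 1)`, `suf (t+1) = suf t ++ blk d t (ρ 1)`, `suf t <:+ blk d t (ρ 0) = blk d t a`.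
  Otherwise `lvl d x (t+1) 0 = ρ 0`, `suf (t+1) = suf t <:+ blk d t (ρ 0)`, which is a suffix of `blk d (t+1) (ρ 0)` in both
  cases of the definition.
* `decomp`: induction on `t`. `t = 0`: `[x 0] ++ (lwin x 1 n).flatMap (fun z => [z])` is `lwin x 0 (n+1)` (`lwin_succ'`,
  `List.flatMap_singleton'` or a short induction). Step: `blk d (t+1) = fun z => if z = a then f z else f a ++ f z` with
  `f = blk d t` (funext, definition), so by `blocks` (with `m = 0`) the word is `suf (t+1) ++ (lwin ρ (phi 0 + 1) (phi n - phi 0)).flatMap f`;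
  `phi a ρ 0 = nxt a ρ 0` is `1` in the first case and `0` in the second, so this is
  `suf t ++ (lwin ρ 1 (phi n)).flatMap f` (first case: `lwin_add`, `lwin ρ 1 1 = [ρ 1]`, `phi n = 1 + (phi n - 1)`, `phi n ≥ phi 0 = 1`
  by `phi_mono`), and the induction hypothesis applies.
-/

namespace Pool.Agent.H17.EP

variable {A : Type} {d x : ℕ → A}

open Classical in
private lemma blk_succ (t : ℕ) (z : A) :
    blk d (t + 1) z = if z = d t then blk d t z else blk d t (d t) ++ blk d t z := rfl

private lemma nxt0_pos {a : A} {r : ℕ → A} (h : r 0 = a ∧ r 1 ≠ a) : phi a r 0 = 1 := by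
  show nxt a r 0 = 1
  unfold nxt
  rw [if_pos h]

private lemma nxt0_neg {a : A} {r : ℕ → A} (h : ¬ (r 0 = a ∧ r 1 ≠ a)) : phi a r 0 = 0 := by
  show nxt a r 0 = 0
  unfold nxt
  rw [if_neg h]

lemma suf_ne (t : ℕ) : suf d x t ≠ [] := by
  induction t with
  | zero => simp [suf]
  | succ t ih =>
    unfold suf
    split_ifs
    · simp [ih]
    · exact ih

lemma suf_suffix (t : ℕ) : suf d x t <:+ blk d t (lvl d x t 0) := by
  induction t with
  | zero => simp [suf, blk, lvl]
  | succ t ih =>
    have h0 : lvl d x (t + 1) 0 = lvl d x t (phi (d t) (lvl d x t) 0) := rfl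
    by_cases h : lvl d x t 0 = d t ∧ lvl d x t 1 ≠ d t
    · rw [h0, nxt0_pos h, blk_succ, if_neg h.2]
      unfold suf
      rw [if_pos h]
      obtain ⟨w, hw⟩ := ih
      refine ⟨w, ?_⟩
      rw [← List.append_assoc, hw, h.1]
    · rw [h0, nxt0_neg h, blk_succ]
      unfold suf
      rw [if_neg h]
      split_ifs
      · exact ih
      · exact ih.trans (List.suffix_append _ _)

open Classical in
lemma decomp (hx : Iso d x) (t n : ℕ) :
    Pre (suf d x t ++ (lwin (lvl d x t) 1 n).flatMap (blk d t)) x := by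
  induction t generalizing n with
  | zero =>
    have h1 : ∀ (l : List A), l.flatMap (blk d 0) = l := by
      intro l
      induction l with
      | nil => rfl
      | cons b l ih => simp only [List.flatMap_cons, ih]; rfl
    rw [h1]
    have h2 : suf d x 0 ++ lwin (lvl d x 0) 1 n = lwin x 0 (n + 1) := by
      rw [lwin_succ']
      rfl
    rw [h2]
    exact pre_lwin x (n + 1)
  | succ t ih =>
    have hf : blk d (t + 1) = fun z => if z = d t then blk d t z else blk d t (d t) ++ blk d t z := by
      funext z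
      exact blk_succ t z
    have hl : lvl d x (t + 1) = step (d t) (lvl d x t) := rfl
    have hb := blocks (hx t) (blk d t) 0 n
    rw [hf, hl, show (1 : ℕ) = 0 + 1 from rfl, hb, zero_add]
    by_cases h : lvl d x t 0 = d t ∧ lvl d x t 1 ≠ d t
    · unfold suf
      rw [if_pos h, nxt0_pos h]
      have h3 : 1 ≤ phi (d t) (lvl d x t) n := by
        have := phi_mono (a := d t) (x := lvl d x t) (Nat.zero_le n)
        rwa [nxt0_pos h] at this
      have h4 := ih (phi (d t) (lvl d x t) n)
      have h5 : lwin (lvl d x t) 1 (phi (d t) (lvl d x t) n) =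
          [lvl d x t 1] ++ lwin (lvl d x t) (1 + 1) (phi (d t) (lvl d x t) n - 1) := by
        obtain ⟨k, hk⟩ := Nat.exists_eq_add_of_le h3
        rw [hk, lwin_add, lwin_one, Nat.add_sub_cancel_left]
      rw [h5, List.flatMap_append] at h4
      simpa [List.append_assoc] using h4
    · unfold suf
      rw [if_neg h, nxt0_neg h]
      have h4 := ih (phi (d t) (lvl d x t) n)
      simpa using h4

end Pool.Agent.H17.EP
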