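import Mathlib
import Pool.Agent.H17.EP.Desub

set_option autoImplicit false

/-!
# Module AliA (90 lines): the prefixes of `x` at level `t`

PROOFS. Abbreviate `S = suf d x t`, `ρ = lvl d x t`, `B = blk d t`, `P = pal d t`.
* `pal_flat`: `P <+: (lwin ρ i n).flatMap B ++ P` for every `n` (induction on `n`, from the left: `lwin_succ'`:
  `P <+: B z ++ P <+: B z ++ (rest ++ P)`; `P <+: B z ++ P` by `blk_pal`). For `n ≥ P.length`:
  `(…).flatMap B` has length `≥ n ≥ P.length` (`flatMap_len`, `blk_ne`), so `P` is a prefix of it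
  (`List.prefix_of_prefix_length_le`).
* `pre_pal`: `decomp` with `n = P.length`, `pre_of_prefix`, `List.prefix_append_right_inj`.
* `pre_blk_pal`: `ρ 0 ≠ d t` and `hx t 0` give `ρ 1 = d t`. `decomp` with `n = 1 + P.length`, `lwin_add`: the word is
  `S ++ (B (ρ 1) ++ (lwin ρ 2 P.length).flatMap B)`, and `pal_flat`.
-/

namespace Pool.Agent.H17.EP

variable {A : Type} {d x : ℕ → A}

private lemma pal_flat' (t : ℕ) (ρ : ℕ → A) (i n : ℕ) :
    pal d t <+: (lwin ρ i n).flatMap (blk d t) ++ pal d t := by
  induction n generalizing i with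
  | zero => simp [lwin]
  | succ n ih =>
    rw [lwin_succ', List.flatMap_cons, List.append_assoc]
    have h1 : pal d t <+: blk d t (ρ i) ++ pal d t := by
      rw [blk_pal]
      exact List.prefix_append _ _
    refine h1.trans ?_
    exact (List.prefix_append_right_inj _).2 (ih (i + 1))

lemma pal_flat (t : ℕ) (ρ : ℕ → A) (i n : ℕ) (hn : (pal d t).length ≤ n) :
    pal d t <+: (lwin ρ i n).flatMap (blk d t) := by
  have h1 := pal_flat' (d := d) t ρ i n
  have h2 : (lwin ρ i n).flatMap (blk d t) <+: (lwin ρ i n).flatMap (blk d t) ++ pal d t :=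
    List.prefix_append _ _
  refine List.prefix_of_prefix_length_le h1 h2 ?_
  exact hn.trans (flatMap_len ρ (blk d t) (fun z => blk_ne t z) i n)

lemma pre_pal (hx : Iso d x) (t : ℕ) : Pre (suf d x t ++ pal d t) x := by
  refine pre_of_prefix (decomp hx t (pal d t).length) ?_
  exact (List.prefix_append_right_inj _).2 (pal_flat t (lvl d x t) 1 _ le_rfl)

lemma pre_blk_pal (hx : Iso d x) (t : ℕ) (h : lvl d x t 0 ≠ d t) :
    Pre (suf d x t ++ (blk d t (d t) ++ pal d t)) x := by
  have h1 : lvl d x t 1 = d t := (hx t 0).resolve_left h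
  refine pre_of_prefix (decomp hx t (1 + (pal d t).length)) ?_
  refine (List.prefix_append_right_inj _).2 ?_
  rw [lwin_add, lwin_one, List.flatMap_append, h1]
  have h2 : ([d t] : List A).flatMap (blk d t) = blk d t (d t) := by simp
  rw [h2]
  exact (List.prefix_append_right_inj _).2 (pal_flat t (lvl d x t) (1 + 1) _ le_rfl)

end Pool.Agent.H17.EP
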