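import Mathlib
import Pool.Agent.H17.EP.BlkA

set_option autoImplicit false

/-!
# Module BlkB (70 lines): the last use of a letter

PROOFS.
* `blk_unused`: induction on `t`. `t = 0`: `[z] = [] ++ [z]`. Step: `z ≠ d t`, so `blk d (t+1) z = blk d t (d t) ++ blk d t z
  = blk d t (d t) ++ (pal d t ++ [z]) = pal d (t+1) ++ [z]`.
* `pal_used`: write `t = τ + 1 + s` and use induction on `s`. `s = 0`: `pal d (τ+1) = blk d τ z ++ pal d τ` (as `d τ = z`) and
  `blk d (τ+1) z = blk d τ z`. Step: `d (τ+1+s) ≠ z`: `pal d (t+1) = blk d t (d t) ++ pal d t = blk d t (d t) ++ (blk d t z ++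
  pal d τ) = blk d (t+1) z ++ pal d τ`.
* `last_use`: induction on `t`: at `t + 1` either `d t = z` (take `τ = t`) or the alternative for `t`.
* `lastw_unused`, `lastw_used`: the same inductions on `t` (for `lastw_used`: the case `d t = z` of the recursion forces
  `τ = t`, the other case `τ < t`).
-/

namespace Pool.Agent.H17.EP

variable {A : Type} {d : ℕ → A}

lemma blk_unused (t : ℕ) (z : A) (h : ∀ j, j < t → d j ≠ z) : blk d t z = pal d t ++ [z] := by
  classical
  induction t with
  | zero => rfl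
  | succ t ih =>
    have h1 : z ≠ d t := fun e => h t (Nat.lt_succ_self t) e.symm
    have h2 := ih (fun j hj => h j (Nat.lt_succ_of_lt hj))
    show (if z = d t then blk d t z else blk d t (d t) ++ blk d t z) = (blk d t (d t) ++ pal d t) ++ [z]
    rw [if_neg h1, h2, List.append_assoc]

lemma pal_used (t τ : ℕ) (z : A) (hτ : τ < t) (hz : d τ = z) (h : ∀ j, τ < j → j < t → d j ≠ z) :
    pal d t = blk d t z ++ pal d τ := by
  classical
  obtain ⟨s, rfl⟩ : ∃ s, t = τ + 1 + s := ⟨t - (τ + 1), by omega⟩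
  clear hτ
  induction s with
  | zero =>
    show blk d τ (d τ) ++ pal d τ = (if z = d τ then blk d τ z else blk d τ (d τ) ++ blk d τ z) ++ pal d τ
    rw [if_pos hz.symm, hz]
  | succ s ih =>
    have h1 : z ≠ d (τ + 1 + s) := fun e => h (τ + 1 + s) (by omega) (by omega) e.symm
    have h2 := ih (fun j hj hj' => h j hj (by omega))
    show blk d (τ + 1 + s) (d (τ + 1 + s)) ++ pal d (τ + 1 + s) = (if z = d (τ + 1 + s) then blk d (τ + 1 + s) z
      else blk d (τ + 1 + s) (d (τ + 1 + s)) ++ blk d (τ + 1 + s) z) ++ pal d τ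
    rw [if_neg h1, List.append_assoc, ← h2]

lemma last_use (t : ℕ) (z : A) :
    (∀ j, j < t → d j ≠ z) ∨ ∃ τ, τ < t ∧ d τ = z ∧ ∀ j, τ < j → j < t → d j ≠ z := by
  induction t with
  | zero => left; intro j hj; exact absurd hj (Nat.not_lt_zero j)
  | succ t ih =>
    by_cases hz : d t = z
    · right
      exact ⟨t, Nat.lt_succ_self t, hz, fun j h1 h2 => by omega⟩
    · rcases ih with h | ⟨τ, h1, h2, h3⟩
      · left
        intro j hj
        rcases Nat.lt_succ_iff_lt_or_eq.mp hj with h4 | h4
        · exact h j h4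
        · rw [h4]; exact hz
      · right
        refine ⟨τ, Nat.lt_succ_of_lt h1, h2, fun j h4 h5 => ?_⟩
        rcases Nat.lt_succ_iff_lt_or_eq.mp h5 with h6 | h6
        · exact h3 j h4 h6
        · rw [h6]; exact hz

lemma lastw_unused (m : List A → ℝ) (t : ℕ) (z : A) (h : ∀ j, j < t → d j ≠ z) : lastw m d t z = 0 := by
  classical
  induction t with
  | zero => rfl
  | succ t ih =>
    have h1 : d t ≠ z := h t (Nat.lt_succ_self t)
    show (if d t = z then m (pal d t) else lastw m d t z) = 0
    rw [if_neg h1]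
    exact ih (fun j hj => h j (Nat.lt_succ_of_lt hj))

lemma lastw_used (m : List A → ℝ) (t τ : ℕ) (z : A) (hτ : τ < t) (hz : d τ = z)
    (h : ∀ j, τ < j → j < t → d j ≠ z) : lastw m d t z = m (pal d τ) := by
  classical
  induction t with
  | zero => exact absurd hτ (Nat.not_lt_zero τ)
  | succ t ih =>
    show (if d t = z then m (pal d t) else lastw m d t z) = m (pal d τ)
    rcases Nat.lt_succ_iff_lt_or_eq.mp hτ with h1 | h1
    · have h2 : d t ≠ z := h t h1 (Nat.lt_succ_self t)
      rw [if_neg h2]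
      exact ih h1 (fun j hj hj' => h j hj (Nat.lt_succ_of_lt hj'))
    · rw [← h1, if_pos hz]

end Pool.Agent.H17.EP
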