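import Mathlib
import Pool.Agent.H17.EP.AliA
import Pool.Agent.H17.EP.BlkB

set_option autoImplicit false

/-!
# Module AliB (90 lines): the mirrored pairs of words at level `t`

PROOFS. Abbreviate `S = suf d x t`, `T = suf d y t`, `B = blk d t`, `P = pal d t`.
* `ali_one`: `lvl d x t 0 = d t`, `lvl d y t 0 ≠ d t`. `S <:+ B (d t)` (`suf_suffix`), so `S.reverse <+: (B (d t)).reverse`
  (`List.reverse_prefix`). By `pre_blk_pal` for `y` and `blk_pal` the word `T ++ (P ++ (B (d t)).reverse)` is a prefix of `y`,
  hence so is `T ++ (P ++ S.reverse) = T ++ (S ++ P).reverse` (`pal_rev`).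
* `ali_two`: `z = lvl d x t 0 = lvl d y t 0`, `S, T <:+ B z`. By `last_use`:
  - used, last use `τ`: `P = B z ++ P'`, `P' = pal d τ` a palindrome (`pal_used`, `pal_rev`), and `P = P.reverse = P' ++ (B z).reverse`.
    Take `Q = P'`, `T1 = T.reverse`, `W = S ++ (P' ++ T.reverse)`: `P' ++ T.reverse <+: P`, so `Pre W x` by `pre_pal`;
    `W.reverse = T ++ (P' ++ S.reverse)` (`P'.reverse = P'`), a prefix of `T ++ P`.
  - unused: `B z = P ++ [z]`; `S ≠ []` is a suffix of it, so `S = S1 ++ [z]`, `S1 <:+ P` (e.g. `S = (P ++ [z]).drop k` with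
    `k ≤ P.length` as `S ≠ []`), and the same for `T = T1' ++ [z]`. Take `Q = []`, `T1 = T1'.reverse`,
    `T.reverse = z :: T1`, `W = S ++ T1'.reverse`, `T1'.reverse <+: P.reverse = P`;
    `W.reverse = T1' ++ S.reverse = T1' ++ (z :: S1.reverse) = T ++ S1.reverse`, `S1.reverse <+: P`.
-/

namespace Pool.Agent.H17.EP

variable {A : Type} {d x y : ℕ → A}

lemma ali_one (hy : Iso d y) (t : ℕ) (h : lvl d x t 0 = d t) (h' : lvl d y t 0 ≠ d t) :
    Pre (suf d y t ++ (suf d x t ++ pal d t).reverse) y := by
  have hS : suf d x t <:+ blk d t (d t) := by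
    have := suf_suffix (d := d) (x := x) t
    rwa [h] at this
  have h1 := pre_blk_pal hy t h'
  rw [blk_pal] at h1
  refine pre_of_prefix h1 ?_
  rw [List.reverse_append, pal_rev, List.prefix_append_right_inj, List.prefix_append_right_inj]
  exact List.reverse_prefix.2 hS

lemma ali_two (hx : Iso d x) (hy : Iso d y) (t : ℕ) (h : lvl d x t 0 = lvl d y t 0) :
    ∃ Q T1 : List A, (∃ z, (suf d y t).reverse = T1 ∨ (suf d y t).reverse = z :: T1) ∧
      Pre (suf d x t ++ (Q ++ T1)) x ∧ Pre (suf d x t ++ (Q ++ T1)).reverse y := by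
  obtain ⟨z, hz⟩ : ∃ z, z = lvl d x t 0 := ⟨_, rfl⟩
  have hS : suf d x t <:+ blk d t z := by
    rw [hz]; exact suf_suffix t
  have hT : suf d y t <:+ blk d t z := by
    rw [hz, h]; exact suf_suffix t
  have hPx := pre_pal hx t
  have hPy := pre_pal hy t
  rcases last_use (d := d) t z with hu | ⟨τ, h1, h2, h3⟩
  · -- unused
    have hB := blk_unused t z hu
    rw [hB] at hS hT
    rcases List.suffix_concat_iff.1 hS with h0 | ⟨S1, hS1, hS2⟩
    · exact absurd h0 (suf_ne t)
    rcases List.suffix_concat_iff.1 hT with h0 | ⟨T1, hT1, hT2⟩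
    · exact absurd h0 (suf_ne t)
    refine ⟨[], T1.reverse, ⟨z, Or.inr ?_⟩, ?_, ?_⟩
    · rw [hT1, List.reverse_append]
      rfl
    · refine pre_of_prefix hPx ?_
      rw [List.nil_append, List.prefix_append_right_inj]
      have := List.reverse_prefix.2 hT2
      rwa [pal_rev] at this
    · refine pre_of_prefix hPy ?_
      have e : (suf d x t ++ ([] ++ T1.reverse)).reverse = suf d y t ++ S1.reverse := by
        rw [List.nil_append, List.reverse_append, List.reverse_reverse, hS1, hT1,
          List.reverse_append, List.append_assoc]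
        rfl
      rw [e, List.prefix_append_right_inj]
      have := List.reverse_prefix.2 hS2
      rwa [pal_rev] at this
  · -- used
    have hP := pal_used t τ z h1 h2 h3
    have hP2 : pal d t = pal d τ ++ (blk d t z).reverse := by
      rw [← pal_rev t, hP, List.reverse_append, pal_rev]
    refine ⟨pal d τ, (suf d y t).reverse, ⟨z, Or.inl rfl⟩, ?_, ?_⟩
    · refine pre_of_prefix hPx ?_
      rw [List.prefix_append_right_inj, hP2, List.prefix_append_right_inj]
      exact List.reverse_prefix.2 hT
    · refine pre_of_prefix hPy ?_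
      have e : (suf d x t ++ (pal d τ ++ (suf d y t).reverse)).reverse =
          suf d y t ++ (pal d τ ++ (suf d x t).reverse) := by
        rw [List.reverse_append, List.reverse_append, List.reverse_reverse, pal_rev,
          List.append_assoc]
      rw [e, List.prefix_append_right_inj, hP2, List.prefix_append_right_inj]
      exact List.reverse_prefix.2 hS

end Pool.Agent.H17.EP
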