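import Mathlib

set_option autoImplicit false

/-!
# Module RealSeq (110 lines): the alternating regime is impossible

Only real sequences. PROOF. `V k = P k + S k`.
* (a) for `k ≥ 2`: `S k = T (k-1) ≤ V (k-2) - Q k + C`, so by `h3` `P (k+1) ≥ 2 P k + S k - V (k-2) - 2 C = P k + V k - V (k-2) - 2 C`.
* (b) by induction on `n ≥ 1`: `P (n+1) ≥ V n + V (n-1) - D - 2 C n`, `D = |V 1| + |V 0| + |P 2|` (write `n = m + 1`:
  `P (m+2) ≥ V (m+1) + V m - D - 2 C (m+1)`, induction on `m`, step by (a) with `k = m + 2`).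
* (c) `ρ V (k+1) ≤ T (k+1) + C ≤ V k + 2 C` (`h4`, `h2`, `Q ≥ 0`).
* (d) `V (m+2) = P (m+2) + T (m+1) ≥ V (m+1) + V m - D - 2 C (m+1) + ρ V (m+1) - C`. With (c): `V (m+1) + 2 C ≥ ρ V (m+2) ≥
  ρ ((1+ρ) V (m+1) + V m - D - 2 C (m+1) - C)` and `V m ≥ ρ V (m+1) - 2 C`; so
  `(ρ (1+2ρ) - 1) V (m+1) ≤ 2 C + ρ (D + 3 C + 2 C (m+1))`, i.e. (θ = ρ (1+2ρ) - 1 = (2ρ-1)(ρ+1) > 0)
  `V (m+1) ≤ a + b (m+1)` with `a = (D + 5 C)/θ`, `b = 2 C/θ` (`ρ ≤ 1`).
* (e) `P k ≤ V k`: for `k ≥ 1` need `S k ≥ 0`: hypothesis `h7`. So `P (m+1) ≤ a + b (m+1)`.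
* (f) by `h5`, `h1`, `h4`: `P (k+2) ≥ P (k+1) + S (k+1) - C = P (k+1) + T k - C ≥ P (k+1) + ρ P k - 2 C` (`S k ≥ 0`). As `P → ∞`
  there is `k0` with `ρ P k - 2 C ≥ b + 1` for `k ≥ k0`; so `P (k0+1+j) ≥ P (k0+1) + (b+1) j`, against (e) for large `j`.
-/

namespace Pool.Agent.H17.EP

open Filter

lemma real_seq {P S T Q : ℕ → ℝ} {C ρ : ℝ} (hρ : 1 / 2 < ρ) (hρ1 : ρ ≤ 1) (hC : 0 ≤ C)
    (h1 : ∀ k, S (k + 1) = T k) (h2 : ∀ k, T (k + 1) ≤ S k + P k - Q (k + 2) + C)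
    (h3 : ∀ k, 2 * P k - Q k - C ≤ P (k + 1)) (h4 : ∀ k, ρ * (P k + S k) ≤ T k + C)
    (h5 : ∀ k, P k + S k - C ≤ P (k + 1)) (h6 : ∀ k, 0 ≤ Q k) (h7 : ∀ k, 0 ≤ S k)
    (h8 : Tendsto P atTop atTop) : False := by
  set V : ℕ → ℝ := fun k => P k + S k with hV
  -- (a)
  have ha : ∀ k, P (k + 2) + V (k + 2) - V k - 2 * C ≤ P (k + 3) := by
    intro k
    have e1 := h3 (k + 2)
    have e2 := h2 k
    have e3 := h1 (k + 1)
    simp only [hV]
    have e4 : k + 2 + 1 = k + 3 := rfl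
    have e5 : k + 1 + 1 = k + 2 := rfl
    rw [e4] at e1
    rw [e5] at e3
    linarith
  -- (b)
  set D : ℝ := |V 1| + |V 0| + |P 2| with hD
  have hb : ∀ m : ℕ, V (m + 1) + V m - D - 2 * C * (m + 1) ≤ P (m + 2) := by
    intro m
    induction m with
    | zero =>
      have := le_abs_self (V 1)
      have := le_abs_self (V 0)
      have := neg_abs_le (P 2)
      simp only [Nat.cast_zero, zero_add]
      rw [hD]
      linarith
    | succ m ih =>
      have h := ha m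
      push_cast
      have e4 : m + 1 + 2 = m + 3 := rfl
      have e5 : m + 1 + 1 = m + 2 := rfl
      rw [e4, e5]
      have e6 : V (m + 2) = P (m + 2) + S (m + 2) := rfl
      linarith
  -- (c)
  have hc : ∀ k, ρ * V (k + 1) ≤ V k + 2 * C := by
    intro k
    have e1 := h4 (k + 1)
    have e2 := h2 k
    have e3 := h6 (k + 2)
    simp only [hV]
    linarith
  have hθ : 0 < ρ * (1 + 2 * ρ) - 1 := by nlinarith
  set θ : ℝ := ρ * (1 + 2 * ρ) - 1 with hθd
  have hD0 : 0 ≤ D := by positivity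
  -- (d)
  have hd : ∀ m : ℕ, θ * V (m + 1) ≤ D + 5 * C + 2 * C * (m + 1) := by
    intro m
    have e1 : V (m + 2) = P (m + 2) + T (m + 1) := by
      simp only [hV]
      rw [← h1 (m + 1)]
    have e2 := h4 (m + 1)
    have e3 := hb m
    have e4 : ρ * V (m + 1) ≤ T (m + 1) + C := e2
    have e5 : V (m + 1) + V m - D - 2 * C * (m + 1) + ρ * V (m + 1) - C ≤ V (m + 2) := by
      rw [e1]; linarith
    have e6 := hc (m + 1)
    have e7 := hc m
    have e8 : m + 1 + 1 = m + 2 := rfl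
    rw [e8] at e6
    have hρ0 : 0 < ρ := by linarith
    have e9 : ρ * (V (m + 1) + (ρ * V (m + 1) - 2 * C) - D - 2 * C * (m + 1) + ρ * V (m + 1) - C) ≤
        V (m + 1) + 2 * C := by
      refine le_trans ?_ e6
      apply mul_le_mul_of_nonneg_left _ hρ0.le
      linarith
    have e10 : ρ * (D + 3 * C + 2 * C * (m + 1)) ≤ D + 3 * C + 2 * C * (m + 1) := by
      have : 0 ≤ D + 3 * C + 2 * C * ((m : ℝ) + 1) := by positivity
      nlinarith
    rw [hθd]
    nlinarith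
  set a : ℝ := (D + 5 * C) / θ with haa
  set b : ℝ := 2 * C / θ with hbb
  have hb0 : 0 ≤ b := by positivity
  have he : ∀ m : ℕ, P (m + 1) ≤ a + b * (m + 1) := by
    intro m
    have e1 := hd m
    have e2 : P (m + 1) ≤ V (m + 1) := by
      have := h7 (m + 1)
      simp only [hV]
      linarith
    have e3 : V (m + 1) ≤ (D + 5 * C + 2 * C * (m + 1)) / θ := by
      rw [le_div_iff₀ hθ]
      linarith
    have e4 : (D + 5 * C + 2 * C * ((m : ℝ) + 1)) / θ = a + b * (m + 1) := by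
      rw [haa, hbb]
      ring
    linarith
  -- (f)
  have hf : ∀ k, P (k + 1) + ρ * P k - 2 * C ≤ P (k + 2) := by
    intro k
    have e1 := h5 (k + 1)
    have e2 := h1 k
    have e3 := h4 k
    have e4 := h7 k
    have e5 : k + 1 + 1 = k + 2 := rfl
    rw [e5] at e1
    have e6 : 0 ≤ ρ * S k := by
      apply mul_nonneg _ e4
      linarith
    linarith
  obtain ⟨k0, hk0⟩ := (h8.eventually_ge_atTop (2 * (b + 1 + 2 * C))).exists_forall_of_atTop
  have hρk : ∀ k, k0 ≤ k → b + 1 ≤ ρ * P k - 2 * C := by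
    intro k hk
    have := hk0 k hk
    have h9 : 0 ≤ P k := by linarith
    nlinarith
  have hg : ∀ j : ℕ, P (k0 + 1) + (b + 1) * j ≤ P (k0 + 1 + j) := by
    intro j
    induction j with
    | zero => simp
    | succ j ih =>
      have e1 := hf (k0 + j)
      have e2 := hρk (k0 + j) (by omega)
      push_cast
      have e3 : k0 + j + 1 = k0 + 1 + j := by omega
      have e4 : k0 + j + 2 = k0 + 1 + (j + 1) := by omega
      rw [e3, e4] at e1
      linarith
  obtain ⟨j, hj⟩ := exists_nat_gt (a + b * (k0 + 1) - P (k0 + 1))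
  have e1 := hg j
  have e2 := he (k0 + j)
  have e3 : k0 + j + 1 = k0 + 1 + j := by omega
  rw [e3] at e2
  push_cast at e2
  nlinarith

end Pool.Agent.H17.EP
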