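import Mathlib
import Pool.Agent.H17.EP.Defs

set_option autoImplicit false

/-!
# Module SysA (90 lines): monotonicity, constant stretches, late levels

PROOFS.
* `pMono`: `monotone_nat_of_le_succ`, `pStep`, `L0`. `large`: `pInf` (`tendsto_atTop.1`, `eventually_atTop`).
* `wStep`: if `d t = Z i t` by `wEv`, else by `wNo`. `wMono`: `monotone_nat_of_le_succ`.
* `const`: induction on `u` from `t` (`Nat.le_induction`), `wNo`.
* `neLate`: take `N` with `4 K + 1 ≤ p t` for `t ≥ N` (`large`). If `Z true t = Z false t` then `A2`: `w true t + w false t ≤ K`, and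
  `A0`: `ρ p t ≤ 2 K`; but `ρ p t ≥ p t / 2 ≥ 2 K + 1/2`.
* `ne_side`: `Z i t ≠ Z (!i) t` from `Z true t ≠ Z false t` (cases on `i`).
* `pSucc`: `p t + w i t - K ≤ p (t+1)` if `d t = Z i t`: `pStep` and `wLe`.
* `wUp`: `w i (t+1) ≤ w i t + p t + 2 K` for `d t = Z i t`: by `wEv`: either equal (`p0`, `K0`) or `L t z ≤ p t - q t z + K ≤ p t + K`.
* `wLe'`: `w i t ≤ p t + 2 K`: `wLe`, `LUp`, `q0`.
-/

namespace Pool.Agent.H17.EP

open Filter

variable {A : Type} {d : ℕ → A} {Z : Bool → ℕ → A} {w : Bool → ℕ → ℝ} {p : ℕ → ℝ} {L q : ℕ → A → ℝ} {K ρ : ℝ}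

lemma Sys.pMono (h : Sys d Z w p L q K ρ) : Monotone p := by
  apply monotone_nat_of_le_succ
  intro t
  have h1 := h.pStep t
  have h2 := h.L0 t (d t)
  linarith

lemma Sys.large (h : Sys d Z w p L q K ρ) (C : ℝ) : ∃ N, ∀ t, N ≤ t → C ≤ p t :=
  eventually_atTop.1 (tendsto_atTop.1 h.pInf C)

lemma Sys.wMono (h : Sys d Z w p L q K ρ) (i : Bool) : Monotone (w i) := by
  apply monotone_nat_of_le_succ
  intro t
  by_cases hd : d t = Z i t
  · rcases h.wEv i t hd with h1 | h1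
    · exact h1.1.ge
    · exact h1.2.1
  · exact (h.wNo i t hd).1.ge

lemma Sys.const (h : Sys d Z w p L q K ρ) {i : Bool} {t u : ℕ} (htu : t ≤ u)
    (hj : ∀ j, t ≤ j → j < u → d j ≠ Z i j) : w i u = w i t ∧ Z i u = Z i t := by
  induction u, htu using Nat.le_induction with
  | base => exact ⟨rfl, rfl⟩
  | succ u htu ih =>
    have h1 := ih (fun j hj1 hj2 => hj j hj1 (by omega))
    have h2 := h.wNo i u (hj u htu (by omega))
    exact ⟨h2.1.trans h1.1, h2.2.trans h1.2⟩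

lemma Sys.neLate (h : Sys d Z w p L q K ρ) : ∃ N, ∀ t, N ≤ t → ∀ i, Z i t ≠ Z (!i) t := by
  obtain ⟨N, hN⟩ := h.large (4 * K + 1)
  refine ⟨N, fun t ht => ?_⟩
  have key : Z true t ≠ Z false t := by
    intro he
    have h1 := h.A2 t he
    have h2 := h.A0 t
    have h3 := hN t ht
    have h4 := h.rlo
    have h5 := h.K0
    have h6 : 1 / 2 * p t ≤ ρ * p t := mul_le_mul_of_nonneg_right h4.le (h.p0 t)
    linarith
  intro i
  cases i
  · exact fun he => key he.symm
  · exact key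

lemma Sys.pSucc (h : Sys d Z w p L q K ρ) {i : Bool} {t : ℕ} (hd : d t = Z i t) :
    p t + w i t - K ≤ p (t + 1) := by
  have h1 := h.pStep t
  have h2 := h.wLe i t
  rw [← hd] at h2
  linarith

lemma Sys.wUp (h : Sys d Z w p L q K ρ) {i : Bool} {t : ℕ} (hd : d t = Z i t) :
    w i (t + 1) ≤ w i t + p t + 2 * K := by
  have h1 := h.p0 t
  have h2 := h.K0
  rcases h.wEv i t hd with h3 | h3
  · rw [h3.1]
    linarith
  · have h4 := h.LUp t (Z i (t + 1))
    have h5 := h.q0 t (Z i (t + 1))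
    linarith [h3.2.2]

lemma Sys.wLe' (h : Sys d Z w p L q K ρ) (i : Bool) (t : ℕ) : w i t ≤ p t + 2 * K := by
  have h1 := h.wLe i t
  have h2 := h.LUp t (Z i t)
  have h3 := h.q0 t (Z i t)
  linarith

end Pool.Agent.H17.EP
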