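import Mathlib
import Pool.Agent.H17.EP.SysA

set_option autoImplicit false

/-!
# Module SysB (70 lines): both sides have infinitely many events

PROOF. Suppose `d t ≠ Z i t` for all `t ≥ N`. Then `w i t = w i N =: C` for `t ≥ N` (`const`).
Case 1: for every `M` some `t ≥ M` has `d t = Z (!i) t`. Take `M = max N N1 N2`, `N1` from `neLate`, `N2` from `large (2 C + 2 K + 1)`.
`A1 (!i) t`: `ρ (p t + w (!i) t) ≤ w (!!i) t + K = C + K` (`Bool.not_not`), so `p t / 2 ≤ ρ p t ≤ C + K` (`w0`, `p0`), contradiction.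
Case 2: there is `M` with `d t ≠ Z (!i) t` for `t ≥ M`: then `w (!i) t = w (!i) M =: C'` for `t ≥ M`, and `A0 t`:
`ρ p t ≤ C + C' + K` for `t ≥ max N M` (`w true t + w false t = w i t + w (!i) t`, cases on `i`), contradiction with `large`.
-/

namespace Pool.Agent.H17.EP

open Filter

variable {A : Type} {d : ℕ → A} {Z : Bool → ℕ → A} {w : Bool → ℕ → ℝ} {p : ℕ → ℝ} {L q : ℕ → A → ℝ} {K ρ : ℝ}

lemma Sys.infEv (h : Sys d Z w p L q K ρ) (i : Bool) (N : ℕ) : ∃ t, N ≤ t ∧ d t = Z i t := by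
  by_contra hno
  push Not at hno
  have hC : ∀ t, N ≤ t → w i t = w i N := fun t ht => (h.const ht (fun j hj _ => hno j hj)).1
  obtain ⟨N1, hN1⟩ := h.neLate
  have hρ := h.rlo
  by_cases hcase : ∀ M, ∃ t, M ≤ t ∧ d t = Z (!i) t
  · obtain ⟨N2, hN2⟩ := h.large (2 * w i N + 2 * K + 1)
    obtain ⟨t, ht, hd⟩ := hcase (max N (max N1 N2))
    have h1 := h.A1 (!i) t hd (by
      have := hN1 t (by omega) (!i)
      exact this)
    rw [Bool.not_not, hC t (by omega)] at h1
    have h2 := hN2 t (by omega)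
    have h3 := h.w0 (!i) t
    have h4 := h.p0 t
    nlinarith
  · push Not at hcase
    obtain ⟨M, hM⟩ := hcase
    have hC' : ∀ t, M ≤ t → w (!i) t = w (!i) M := fun t ht => (h.const ht (fun j hj _ => hM j hj)).1
    obtain ⟨N2, hN2⟩ := h.large (2 * (w i N + w (!i) M + K) + 1)
    set t := max N (max M N2) with ht
    have h1 := h.A0 t
    have h5 : w true t + w false t = w i t + w (!i) t := by cases i <;> simp [add_comm]
    rw [h5, hC t (by omega), hC' t (by omega)] at h1
    have h2 := hN2 t (by omega)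
    have h4 := h.p0 t
    nlinarith

end Pool.Agent.H17.EP
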