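import Mathlib
import Pool.Agent.H17.EP.SysA

set_option autoImplicit false

/-!
# Module SysC (80 lines): consecutive events of different sides

PROOFS. `N` is the maximum of the number of `neLate` and of the number of `large C`, `C` as below. The hypotheses say: `t < u` are
consecutive events, `t` of the side `i`, `u` of the side `!i`.
FACTS: `w (!i) u = w (!i) t` (`const` on `[t, u)`: at `t` because `d t = Z i t ≠ Z (!i) t`), `w i u = w i (t+1)` (`const` on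
`[t+1, u)`), `A1 i t`: `ρ E ≤ w (!i) t + K` with `E = p t + w i t`; `p u ≥ p (t+1) ≥ E - K` (`pMono`, `pSucc`).
* `switch` (`C = 7 K + 1`): suppose `Z i (t+1) = Z i t`; then `wEv` gives `w i (t+1) = w i t`, so `w i u = w i t`. `A1 (!i) u`:
  `ρ (p u + w (!i) u) ≤ w i u + K` (`Bool.not_not`), so `w i t + K ≥ ρ (E - K + ρ E - K) ≥ ρ (1+ρ) E - 2 K ≥ (3/4) E - 2 K`,
  i.e. `w i t ≥ 3 p t - 12 K`; but `w i t ≤ p t + 2 K` (`wLe'`): `p t ≤ 7 K`, contradiction.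
* `noRepeat`: `v > u` is the next event after `u` and is again of the side `!i`. `w i v = w i u` (`const` on `[u, v)`; at `u`:
  `d u = Z (!i) u ≠ Z i u`) and `w i u = w i (t+1) ≤ E + 2 K` (`wUp`). `p v ≥ p (u+1) ≥ p u + w (!i) u - K` (`pSucc` for the side
  `!i`), `w (!i) u = w (!i) t ≥ ρ E - K`, so `p v ≥ (1+ρ) E - 3 K`; `w (!i) v ≥ w (!i) u ≥ ρ E - K` (`wMono`). `A1 (!i) v`:
  `ρ ((1+2ρ) E - 4 K) ≤ E + 3 K`, so `(ρ (1+2ρ) - 1) E ≤ 7 K` (`ρ ≤ 1`). `ρ (1+2ρ) - 1 = (2ρ-1)(ρ+1) =: θ > 0`, `E ≥ p t`;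
  `C = 7 K / θ + 1`.
-/

namespace Pool.Agent.H17.EP

open Filter

variable {A : Type} {d : ℕ → A} {Z : Bool → ℕ → A} {w : Bool → ℕ → ℝ} {p : ℕ → ℝ} {L q : ℕ → A → ℝ} {K ρ : ℝ}

/-- The facts at two consecutive events of different sides. -/
lemma Sys.twoEv (h : Sys d Z w p L q K ρ) {N : ℕ} (hN : ∀ t, N ≤ t → ∀ i, Z i t ≠ Z (!i) t) {i : Bool}
    {t u : ℕ} (ht : N ≤ t) (htu : t < u) (hd : d t = Z i t)
    (hj : ∀ j, t < j → j < u → ∀ b, d j ≠ Z b j) :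
    w (!i) u = w (!i) t ∧ w i u = w i (t + 1) ∧ ρ * (p t + w i t) ≤ w (!i) t + K ∧ p t + w i t - K ≤ p u := by
  refine ⟨?_, ?_, h.A1 i t hd (hN t ht i), ?_⟩
  · refine (h.const htu.le (fun j h1 h2 => ?_)).1
    rcases Nat.eq_or_lt_of_le h1 with h3 | h3
    · subst h3
      rw [hd]
      exact hN t ht i
    · exact hj j h3 h2 _
  · exact (h.const htu (fun j h1 h2 => hj j h1 h2 _)).1
  · exact (h.pSucc hd).trans (h.pMono htu)

lemma Sys.switch (h : Sys d Z w p L q K ρ) : ∃ N, ∀ (i : Bool) (t u : ℕ), N ≤ t → t < u → d t = Z i t →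
    d u = Z (!i) u → (∀ j, t < j → j < u → ∀ b, d j ≠ Z b j) → Z i (t + 1) ≠ Z i t := by
  obtain ⟨N1, hN1⟩ := h.neLate
  obtain ⟨N2, hN2⟩ := h.large (7 * K + 1)
  refine ⟨max N1 N2, fun i t u ht htu hd hu hj hz => ?_⟩
  obtain ⟨f1, f2, f3, f4⟩ := h.twoEv hN1 (by omega) htu hd hj
  have hw : w i (t + 1) = w i t := by
    rcases h.wEv i t hd with h1 | h1
    · exact h1.1
    · exact absurd hz h1.1
  have g := h.A1 (!i) u hu (hN1 u (by omega) (!i))
  rw [Bool.not_not, f1, f2, hw] at g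
  have g1 := h.wLe' i t
  have g2 := hN2 t (by omega)
  have g3 := h.w0 i t
  have g4 := h.p0 t
  have hr := h.rlo
  have hr1 := h.rhi
  have hK := h.K0
  -- E
  set E := p t + w i t with hE
  have hE0 : 0 ≤ E := by linarith
  have e1 : ρ * (E - K + (ρ * E - K)) ≤ w i t + K := by
    refine le_trans ?_ g
    apply mul_le_mul_of_nonneg_left _ (by linarith)
    linarith
  have e2 : (3 / 4 : ℝ) * E ≤ ρ * E + ρ * (ρ * E) := by nlinarith [mul_nonneg (mul_nonneg (sub_nonneg.2 hr.le) (sub_nonneg.2 hr.le)) hE0, mul_nonneg (sub_nonneg.2 hr.le) hE0]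
  have e3 : ρ * K ≤ K := by nlinarith
  nlinarith

lemma Sys.noRepeat (h : Sys d Z w p L q K ρ) : ∃ N, ∀ (i : Bool) (t u v : ℕ), N ≤ t → t < u → u < v →
    d t = Z i t → d u = Z (!i) u → d v = Z (!i) v → (∀ j, t < j → j < u → ∀ b, d j ≠ Z b j) →
    (∀ j, u < j → j < v → ∀ b, d j ≠ Z b j) → False := by
  have hr := h.rlo
  have hr1 := h.rhi
  have hK := h.K0
  have hθ : 0 < (2 * ρ - 1) * (ρ + 1) := mul_pos (by linarith) (by linarith)
  obtain ⟨N1, hN1⟩ := h.neLate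
  obtain ⟨N2, hN2⟩ := h.large (7 * K / ((2 * ρ - 1) * (ρ + 1)) + 1)
  refine ⟨max N1 N2, fun i t u v ht htu huv hd hu hv hj hj' => ?_⟩
  obtain ⟨f1, f2, f3, f4⟩ := h.twoEv hN1 (by omega) htu hd hj
  obtain ⟨k1, k2, k3, k4⟩ := h.twoEv hN1 (i := !i) (by omega) huv hu hj'
  rw [Bool.not_not] at k1 k3
  have g := h.A1 (!i) v hv (hN1 v (by omega) (!i))
  rw [Bool.not_not, k1, f2] at g
  have g1 := h.wUp hd
  have g5 := h.wMono (!i) huv.le
  have g2 := hN2 t (by omega)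
  have g3 := h.w0 i t
  have g4 := h.p0 t
  set E := p t + w i t with hE
  have hE0 : 0 ≤ E := by linarith
  have e1 : ρ * (((1 + ρ) * E - 3 * K) + (ρ * E - K)) ≤ E + 3 * K := by
    refine le_trans ?_ (g.trans (by linarith))
    apply mul_le_mul_of_nonneg_left _ (by linarith)
    linarith
  have e2 : ρ * K ≤ K := by nlinarith
  have e3 : ((2 * ρ - 1) * (ρ + 1)) * E ≤ 7 * K := by nlinarith
  have e4 : 7 * K / ((2 * ρ - 1) * (ρ + 1)) + 1 ≤ E := by linarith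
  have e5 : 7 * K + ((2 * ρ - 1) * (ρ + 1)) ≤ ((2 * ρ - 1) * (ρ + 1)) * E := by
    have := mul_le_mul_of_nonneg_left e4 hθ.le
    rwa [mul_add, mul_div_cancel₀ _ hθ.ne', mul_one] at this
  linarith

end Pool.Agent.H17.EP
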