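import Mathlib
import Pool.Agent.H17.EP.SysB
import Pool.Agent.H17.EP.SysC

set_option autoImplicit false

/-!
# Module SysD (110 lines): the events alternate

PROOFS.
* `nextEv`: by `infEv true (t+1)` the set of `u > t` with an event is nonempty: `Nat.find`.
* `firstTr`: `t0 ≥ N` with `d t0 = Z true t0` (`infEv`), `u` = the least `u > t0` with `d u = Z false u` (`infEv false (t0+1)`,
  `Nat.find`); `t` = the greatest `t < u`, `t ≥ t0`, with `d t = Z true t` (`Nat.findGreatest` or the maximum of a finite set: the set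
  `{t ∈ range u | t0 ≤ t ∧ d t = Z true t}` contains `t0`). Between `t` and `u` there is no event (cases on `b`).
* `evSeq`: let `N'` be the maximum of `N` and of the number of `noRepeat`. STATE: a triple `(i, t, u)` with
  `T i t u : N' ≤ t ∧ t < u ∧ d t = Z i t ∧ d u = Z (!i) u ∧ ∀ j, t < j → j < u → ∀ b, d j ≠ Z b j`. `firstTr` gives a state. From a state
  `(i, t, u)` let `v` be the next event after `u` (`nextEv`), of the side `b`; `b = !i` is impossible by `noRepeat`, so `b = i = !!i`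
  and `(!i, u, v)` is a state. Iterate (`Nat.rec` on the subtype of states with `Classical.choose`, or
  `exists_seq_of_forall_exists`…): states `(i k, τ k, υ k)` with `i (k+1) = !(i k)`, `τ (k+1) = υ k`.
-/

namespace Pool.Agent.H17.EP

open Filter

variable {A : Type} {d : ℕ → A} {Z : Bool → ℕ → A} {w : Bool → ℕ → ℝ} {p : ℕ → ℝ} {L q : ℕ → A → ℝ} {K ρ : ℝ}

lemma Sys.nextEv (h : Sys d Z w p L q K ρ) (t : ℕ) :
    ∃ u, t < u ∧ (∃ b, d u = Z b u) ∧ ∀ j, t < j → j < u → ∀ b, d j ≠ Z b j := by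
  classical
  have hex : ∃ u, t < u ∧ ∃ b, d u = Z b u := by
    obtain ⟨u, hu, hd⟩ := h.infEv true (t + 1)
    exact ⟨u, hu, true, hd⟩
  obtain ⟨h1, h2⟩ := Nat.find_spec hex
  exact ⟨Nat.find hex, h1, h2, fun j hj hj' b hb => Nat.find_min hex hj' ⟨hj, b, hb⟩⟩

lemma Sys.firstTr (h : Sys d Z w p L q K ρ) (N : ℕ) :
    ∃ t u, N ≤ t ∧ t < u ∧ d t = Z true t ∧ d u = Z false u ∧ ∀ j, t < j → j < u → ∀ b, d j ≠ Z b j := by
  classical
  obtain ⟨t0, ht0, hd0⟩ := h.infEv true N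
  have hex : ∃ u, t0 < u ∧ d u = Z false u := by
    obtain ⟨u, hu, hd⟩ := h.infEv false (t0 + 1)
    exact ⟨u, hu, hd⟩
  obtain ⟨h1, h2⟩ := Nat.find_spec hex
  have h3 : ∀ j, t0 < j → j < Nat.find hex → d j ≠ Z false j :=
    fun j hj hj' hb => Nat.find_min hex hj' ⟨hj, hb⟩
  have hne : ((Finset.range (Nat.find hex)).filter (fun t => t0 ≤ t ∧ d t = Z true t)).Nonempty :=
    ⟨t0, Finset.mem_filter.2 ⟨Finset.mem_range.2 h1, le_rfl, hd0⟩⟩
  have hmem := Finset.max'_mem _ hne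
  rw [Finset.mem_filter, Finset.mem_range] at hmem
  refine ⟨_, Nat.find hex, ht0.trans hmem.2.1, hmem.1, hmem.2.2, h2, ?_⟩
  intro j hj hj' b hb
  cases b with
  | false => exact h3 j (lt_of_le_of_lt hmem.2.1 hj) hj' hb
  | true =>
    have h4 := Finset.le_max' ((Finset.range (Nat.find hex)).filter
      (fun t => t0 ≤ t ∧ d t = Z true t)) j
      (Finset.mem_filter.2 ⟨Finset.mem_range.2 hj', hmem.2.1.trans hj.le, hb⟩)
    exact absurd h4 (not_le.2 hj)

lemma Sys.evSeq (h : Sys d Z w p L q K ρ) (N : ℕ) : ∃ (i : ℕ → Bool) (τ : ℕ → ℕ),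
    (∀ k, i (k + 1) = !(i k)) ∧ (∀ k, τ k < τ (k + 1)) ∧ (∀ k, N ≤ τ k) ∧ (∀ k, d (τ k) = Z (i k) (τ k)) ∧
      ∀ k j b, τ k < j → j < τ (k + 1) → d j ≠ Z b j := by
  obtain ⟨M, hM⟩ := h.noRepeat
  let T : Bool × ℕ × ℕ → Prop := fun x => max N M ≤ x.2.1 ∧ x.2.1 < x.2.2 ∧ d x.2.1 = Z x.1 x.2.1 ∧
    d x.2.2 = Z (!x.1) x.2.2 ∧ ∀ j, x.2.1 < j → j < x.2.2 → ∀ b, d j ≠ Z b j
  have hstep : ∀ s : {x // T x}, ∃ s' : {x // T x}, s'.1.1 = (!s.1.1) ∧ s'.1.2.1 = s.1.2.2 := by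
    rintro ⟨⟨i, t, u⟩, h1, h2, h3, h4, h5⟩
    obtain ⟨v, hv, ⟨b, hb⟩, hv'⟩ := h.nextEv u
    have hbi : b = i := by
      by_contra hne
      have hb' : b = !i := by
        cases b <;> cases i <;> simp_all
      subst hb'
      exact hM i t u v (le_trans (le_max_right _ _) h1) h2 hv h3 h4 hb h5 hv'
    subst hbi
    refine ⟨⟨(!b, u, v), ?_, hv, h4, ?_, hv'⟩, rfl, rfl⟩
    · exact le_trans h1 h2.le
    · change d v = Z (!!b) v
      rw [Bool.not_not]
      exact hb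
  obtain ⟨t, u, h1, h2, h3, h4, h5⟩ := h.firstTr (max N M)
  choose F hF1 hF2 using hstep
  let s0 : {x // T x} := ⟨(true, t, u), h1, h2, h3, h4, h5⟩
  let S : ℕ → {x // T x} := fun k => Nat.rec s0 (fun _ s => F s) k
  have hS : ∀ k, S (k + 1) = F (S k) := fun _ => rfl
  refine ⟨fun k => (S k).1.1, fun k => (S k).1.2.1, ?_, ?_, ?_, ?_, ?_⟩
  · intro k
    change (S (k + 1)).1.1 = _
    rw [hS, hF1]
  · intro k
    change _ < (S (k + 1)).1.2.1
    rw [hS, hF2]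
    exact (S k).2.2.1
  · intro k
    exact le_trans (le_max_left _ _) (S k).2.1
  · intro k
    exact (S k).2.2.2.1
  · intro k j b hj hj'
    change j < (S (k + 1)).1.2.1 at hj'
    rw [hS, hF2] at hj'
    exact (S k).2.2.2.2.2 j hj hj' b

end Pool.Agent.H17.EP
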