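import Mathlib
import Pool.Agent.H17.EP.SysD

set_option autoImplicit false

/-!
# Module SysE (110 lines): the relations of the alternating regime

Let `N` be the maximum of the numbers of `neLate` and `switch`, `i, τ` from `evSeq N`; put `P k = p (τ k)`, `S k = w (i k) (τ k)`,
`T k = w (!(i k)) (τ k)`, `Q k = q (τ k) (d (τ k))`.
PROOF of the six relations.
* R1 `S (k+1) = T k`: `i (k+1) = !(i k)`; `const` for the side `!(i k)` on `[τ k, τ (k+1))` (at `τ k`: `d (τ k) = Z (i k) (τ k) ≠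
  Z (!(i k)) (τ k)`).
* R2 `T (k+1) ≤ S k + P k - Q (k+2) + 2 K`: `!(i (k+1)) = i k`. `z = Z (i k) (τ k + 1) ≠ Z (i k) (τ k)` by `switch` (with `t = τ k`,
  `u = τ (k+1)`), so `wEv` gives `w (i k) (τ k + 1) ≤ S k + L (τ k) z + K ≤ S k + P k - q (τ k) z + 2 K` (`LUp`), and
  `w (i k) (τ (k+1)) = w (i k) (τ k + 1)` (`const` on `[τ k + 1, τ (k+1))`). Moreover for all `j` with `τ k + 1 ≤ j < τ (k+2)`:
  `d j ≠ Z (i k) j` (between the events; at `j = τ (k+1)`: `d j = Z (!(i k)) j ≠ Z (i k) j`), so by `const` `Z (i k) j = z` for all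
  `τ k + 1 ≤ j ≤ τ (k+2)`; hence `d (τ (k+2)) = Z (i (k+2)) (τ (k+2)) = z` (`i (k+2) = i k`), and `d j ≠ z` for all
  `τ k ≤ j < τ (k+2)` (at `j = τ k`: `d (τ k) = Z (i k) (τ k) ≠ z`), so `q (τ (k+2)) z = q (τ k) z` (induction with `qCon`). So
  `Q (k+2) = q (τ k) z`.
* R3 `2 P k - Q k - 2 K ≤ P (k+1)`: `p (τ (k+1)) ≥ p (τ k + 1) ≥ p (τ k) + L (τ k) (d (τ k))` and `LLo`.
* R4 `ρ (P k + S k) ≤ T k + 2 K`: `A1 (i k) (τ k)`.
* R5 `P k + S k - 2 K ≤ P (k+1)`: `pSucc`, `pMono`.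
* R6: `0 ≤ Q k` (`q0`), `0 ≤ S k` (`w0`); `P → ∞`: `τ` is strictly increasing, so `k ≤ τ k` (`StrictMono.id_le`), `p k ≤ P k`, `tendsto_atTop_mono`.
-/

namespace Pool.Agent.H17.EP

open Filter

variable {A : Type} {d : ℕ → A} {Z : Bool → ℕ → A} {w : Bool → ℕ → ℝ} {p : ℕ → ℝ} {L q : ℕ → A → ℝ} {K ρ : ℝ}

lemma Sys.qConst (h : Sys d Z w p L q K ρ) {z : A} {t u : ℕ} (htu : t ≤ u)
    (hj : ∀ j, t ≤ j → j < u → d j ≠ z) : q u z = q t z := by
  induction u, htu using Nat.le_induction with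
  | base => rfl
  | succ n hn ih =>
    rw [h.qCon n z (hj n hn (Nat.lt_succ_self n))]
    exact ih fun j h1 h2 => hj j h1 (Nat.lt_succ_of_lt h2)

lemma Sys.regime (h : Sys d Z w p L q K ρ) : ∃ P S T Q : ℕ → ℝ,
    (∀ k, S (k + 1) = T k) ∧ (∀ k, T (k + 1) ≤ S k + P k - Q (k + 2) + 2 * K) ∧
      (∀ k, 2 * P k - Q k - 2 * K ≤ P (k + 1)) ∧ (∀ k, ρ * (P k + S k) ≤ T k + 2 * K) ∧
      (∀ k, P k + S k - 2 * K ≤ P (k + 1)) ∧ (∀ k, 0 ≤ Q k) ∧ (∀ k, 0 ≤ S k) ∧ Tendsto P atTop atTop := by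
  obtain ⟨N1, hN1⟩ := h.neLate
  obtain ⟨N2, hN2⟩ := h.switch
  obtain ⟨i, τ, hi, hτ, hN, hd, hno⟩ := h.evSeq (max N1 N2)
  have hK0 := h.K0
  have hne : ∀ k b, Z b (τ k) ≠ Z (!b) (τ k) := fun k b =>
    hN1 (τ k) (le_trans (le_max_left _ _) (hN k)) b
  have hdn : ∀ k, d (τ (k + 1)) = Z (!(i k)) (τ (k + 1)) := fun k => by
    rw [hd (k + 1), hi k]
  have hsw : ∀ k, Z (i k) (τ k + 1) ≠ Z (i k) (τ k) := fun k =>
    hN2 (i k) (τ k) (τ (k + 1)) (le_trans (le_max_right _ _) (hN k)) (hτ k) (hd k) (hdn k)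
      (fun j h1 h2 b => hno k j b h1 h2)
  refine ⟨fun k => p (τ k), fun k => w (i k) (τ k), fun k => w (!(i k)) (τ k),
    fun k => q (τ k) (d (τ k)), ?_, ?_, ?_, ?_, ?_, ?_, ?_, ?_⟩
  · intro k
    have hc := (h.const (i := !(i k)) (hτ k).le (fun j h1 h2 => by
      rcases Nat.eq_or_lt_of_le h1 with h3 | h3
      · rw [← h3, hd k]
        exact hne k (i k)
      · exact hno k j _ h3 h2)).1
    show w (i (k + 1)) (τ (k + 1)) = w (!(i k)) (τ k)
    rw [hi k]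
    exact hc
  · intro k
    set z := Z (i k) (τ k + 1) with hz
    have hi1 : (!(i (k + 1))) = i k := by rw [hi k, Bool.not_not]
    have hi2 : i (k + 2) = i k := by
      have := hi (k + 1)
      rw [show k + 2 = k + 1 + 1 from rfl, this, hi1]
    -- no event of the side `i k` strictly between `τ k` and `τ (k + 2)`
    have hnk : ∀ j, τ k + 1 ≤ j → j < τ (k + 2) → d j ≠ Z (i k) j := by
      intro j h1 h2
      rcases lt_trichotomy j (τ (k + 1)) with h3 | h3 | h3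
      · exact hno k j _ h1 h3
      · rw [h3, hdn k]
        exact (hne (k + 1) (i k)).symm
      · exact hno (k + 1) j _ h3 h2
    have hzc : ∀ j, τ k + 1 ≤ j → j ≤ τ (k + 2) → Z (i k) j = z := by
      intro j h1 h2
      exact (h.const (i := i k) h1 (fun l h3 h4 => hnk l h3 (lt_of_lt_of_le h4 h2))).2
    have hdz : d (τ (k + 2)) = z := by
      rw [hd (k + 2), hi2]
      refine hzc _ ?_ le_rfl
      have h1 := hτ k
      have h2 := hτ (k + 1)
      have h3 : τ (k + 1 + 1) = τ (k + 2) := rfl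
      omega
    have hq : q (τ (k + 2)) z = q (τ k) z := by
      refine h.qConst ((hτ k).le.trans (hτ (k + 1)).le) (fun j h1 h2 => ?_)
      rcases Nat.eq_or_lt_of_le h1 with h3 | h3
      · rw [← h3, hd k]
        exact (hsw k).symm
      · rw [← hzc j h3 h2.le]
        exact hnk j h3 h2
    have hw1 : w (i k) (τ (k + 1)) = w (i k) (τ k + 1) :=
      (h.const (i := i k) (hτ k) (fun j h1 h2 => hno k j _ h1 h2)).1
    have hw2 : w (i k) (τ k + 1) ≤ w (i k) (τ k) + L (τ k) z + K := by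
      rcases h.wEv (i k) (τ k) (hd k) with h1 | h1
      · exact absurd h1.2 (hsw k)
      · exact h1.2.2
    have hL := h.LUp (τ k) z
    show w (!(i (k + 1))) (τ (k + 1)) ≤ w (i k) (τ k) + p (τ k) - q (τ (k + 2)) (d (τ (k + 2))) + 2 * K
    rw [hi1, hdz, hq, hw1]
    linarith
  · intro k
    have h1 := h.pMono (hτ k)
    have h2 := h.pStep (τ k)
    have h3 := h.LLo (τ k) (d (τ k))
    have h4 : p (τ k + 1) ≤ p (τ (k + 1)) := h1
    show 2 * p (τ k) - q (τ k) (d (τ k)) - 2 * K ≤ p (τ (k + 1))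
    linarith
  · intro k
    have h1 := h.A1 (i k) (τ k) (hd k) (hne k (i k))
    show ρ * (p (τ k) + w (i k) (τ k)) ≤ w (!(i k)) (τ k) + 2 * K
    linarith
  · intro k
    have h1 : p (τ k + 1) ≤ p (τ (k + 1)) := h.pMono (hτ k)
    have h2 := h.pSucc (hd k)
    show p (τ k) + w (i k) (τ k) - 2 * K ≤ p (τ (k + 1))
    linarith
  · intro k
    exact h.q0 _ _
  · intro k
    exact h.w0 _ _
  · exact h.pInf.comp (strictMono_nat_of_lt_succ hτ).tendsto_atTop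

end Pool.Agent.H17.EP
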