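import Mathlib
import Pool.Agent.H17.EP.StepA
import Pool.Agent.H17.EP.BlkA

set_option autoImplicit false

/-!
# Module Rule (50 lines): how the first part changes from one level to the next

PROOFS. `lvl d x (t+1) 0 = lvl d x t (phi (d t) (lvl d x t) 0)`, `phi a ρ 0 = nxt a ρ 0`, which is `1` if `ρ 0 = a ∧ ρ 1 ≠ a` and
`0` otherwise (unfold `nxt`, `split_ifs`).
* `rule_no`: if `d t ≠ ρ 0` the condition fails: nothing changes.
* `rule_ev`: `d t = ρ 0`: either the condition fails (`ρ 1 = d t`): nothing changes; or it holds: `lvl d x (t+1) 0 = ρ 1 ≠ d t = ρ 0`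
  and `suf (t+1) = suf t ++ blk d t (ρ 1)`.
-/

namespace Pool.Agent.H17.EP

variable {A : Type} {d x : ℕ → A}

lemma rule_no (t : ℕ) (h : d t ≠ lvl d x t 0) :
    suf d x (t + 1) = suf d x t ∧ lvl d x (t + 1) 0 = lvl d x t 0 := by
  classical
  have hc : ¬ (lvl d x t 0 = d t ∧ lvl d x t 1 ≠ d t) := fun hh => h hh.1.symm
  constructor
  · show (if lvl d x t 0 = d t ∧ lvl d x t 1 ≠ d t then suf d x t ++ blk d t (lvl d x t 1) else suf d x t) = suf d x t
    rw [if_neg hc]
  · show lvl d x t (if lvl d x t 0 = d t ∧ lvl d x t (0 + 1) ≠ d t then 0 + 1 else 0) = lvl d x t 0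
    rw [if_neg hc]

lemma rule_ev (t : ℕ) (h : d t = lvl d x t 0) :
    (suf d x (t + 1) = suf d x t ∧ lvl d x (t + 1) 0 = lvl d x t 0) ∨
      (lvl d x (t + 1) 0 ≠ lvl d x t 0 ∧ suf d x (t + 1) = suf d x t ++ blk d t (lvl d x (t + 1) 0)) := by
  classical
  by_cases hc : lvl d x t 0 = d t ∧ lvl d x t 1 ≠ d t
  · right
    have h1 : lvl d x (t + 1) 0 = lvl d x t 1 := by
      show lvl d x t (if lvl d x t 0 = d t ∧ lvl d x t (0 + 1) ≠ d t then 0 + 1 else 0) = lvl d x t 1
      rw [if_pos hc]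
    constructor
    · rw [h1, hc.1]; exact hc.2
    · rw [h1]
      show (if lvl d x t 0 = d t ∧ lvl d x t 1 ≠ d t then suf d x t ++ blk d t (lvl d x t 1) else suf d x t) = _
      rw [if_pos hc]
  · left
    constructor
    · show (if lvl d x t 0 = d t ∧ lvl d x t 1 ≠ d t then suf d x t ++ blk d t (lvl d x t 1) else suf d x t) = suf d x t
      rw [if_neg hc]
    · show lvl d x t (if lvl d x t 0 = d t ∧ lvl d x t (0 + 1) ≠ d t then 0 + 1 else 0) = lvl d x t 0
      rw [if_neg hc]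

end Pool.Agent.H17.EP
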