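import Mathlib
import Pool.Agent.H17.EP.BlkB

set_option autoImplicit false

/-!
# Module WgA (90 lines): weights of blocks

PROOFS (`hw : Wgt m K`).
* `m_nil`: `m [] + m [] ≤ m ([] ++ [])` and `m [] ≥ 0`. `m_prefix`, `m_suffix`: `v = u ++ s` resp. `p ++ u`; `hw.sup`, `hw.nn`.
* `m_blk_rev`: `blk_pal`: `m P + m B.reverse ≤ m (P ++ B.reverse) = m (B ++ P) ≤ m B + m P + K`.
* `lastw_nn`: induction on `t`.
* `m_blk_le`: by `last_use`; unused (`blk_unused`, `lastw_unused`): `m (P ++ [z]) ≤ m P + m [z] + K ≤ m P + 2 K`; used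
  (`pal_used`, `lastw_used`): `m B + m (pal d τ) ≤ m P`.
* `m_blk_ge`: unused: `m P ≤ m (P ++ [z])` (`m_prefix`); used: `m P ≤ m B + m (pal d τ) + K`.
* `m_pal_tendsto`: `t ≤ (pal d t).length ≤ 3 m (pal d t) + 1`, so `(t - 1) / 3 ≤ m (pal d t)`; `tendsto_atTop_mono`.
-/

namespace Pool.Agent.H17.EP

open Filter

variable {A : Type} {d : ℕ → A} {m : List A → ℝ} {K : ℝ}

lemma m_nil (hw : Wgt m K) : m [] = 0 := by
  have h := hw.sup [] []
  have h0 := hw.nn []
  simp only [List.append_nil] at h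
  linarith

lemma m_prefix (hw : Wgt m K) {u v : List A} (h : u <+: v) : m u ≤ m v := by
  obtain ⟨s, rfl⟩ := h
  have h1 := hw.sup u s
  have h2 := hw.nn s
  linarith

lemma m_suffix (hw : Wgt m K) {u v : List A} (h : u <:+ v) : m u ≤ m v := by
  obtain ⟨s, rfl⟩ := h
  have h1 := hw.sup s u
  have h2 := hw.nn s
  linarith

lemma m_blk_rev (hw : Wgt m K) (t : ℕ) (z : A) : m (blk d t z).reverse ≤ m (blk d t z) + K := by
  have h1 := hw.sup (pal d t) (blk d t z).reverse
  have h2 := hw.sub (blk d t z) (pal d t)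
  rw [blk_pal] at h2
  linarith

lemma lastw_nn (hw : Wgt m K) (t : ℕ) (z : A) : 0 ≤ lastw m d t z := by
  induction t with
  | zero => exact le_rfl
  | succ t ih =>
    unfold lastw
    split_ifs
    · exact hw.nn _
    · exact ih

lemma m_blk_le (hw : Wgt m K) (t : ℕ) (z : A) : m (blk d t z) ≤ m (pal d t) - lastw m d t z + 2 * K := by
  rcases last_use (d := d) t z with h | ⟨τ, hτ, hz, h⟩
  · rw [blk_unused t z h, lastw_unused m t z h]
    have h1 := hw.sub (pal d t) [z]
    have h2 := hw.let1 z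
    linarith
  · rw [lastw_used m t τ z hτ hz h]
    have h1 := hw.sup (blk d t z) (pal d τ)
    rw [← pal_used t τ z hτ hz h] at h1
    have h2 := hw.K0
    linarith

lemma m_blk_ge (hw : Wgt m K) (t : ℕ) (z : A) : m (pal d t) - lastw m d t z - 2 * K ≤ m (blk d t z) := by
  have h2 := hw.K0
  rcases last_use (d := d) t z with h | ⟨τ, hτ, hz, h⟩
  · rw [blk_unused t z h, lastw_unused m t z h]
    have h1 := m_prefix hw (List.prefix_append (pal d t) [z])
    linarith
  · rw [lastw_used m t τ z hτ hz h]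
    have h1 := hw.sub (blk d t z) (pal d τ)
    rw [← pal_used t τ z hτ hz h] at h1
    linarith

lemma m_pal_tendsto (hw : Wgt m K) : Tendsto (fun t => m (pal d t)) atTop atTop := by
  have h1 : ∀ t : ℕ, ((t : ℝ) - 1) / 3 ≤ m (pal d t) := by
    intro t
    have h2 := hw.gr (pal d t)
    have h3 : (t : ℝ) ≤ ((pal d t).length : ℝ) := by exact_mod_cast pal_len (d := d) t
    linarith
  refine tendsto_atTop_mono h1 ?_
  apply Tendsto.atTop_div_const (by norm_num)
  exact tendsto_atTop_add_const_right _ _ tendsto_natCast_atTop_atTop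

end Pool.Agent.H17.EP
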