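import Mathlib
import Pool.Agent.H17.EP.WgA
import Pool.Agent.H17.EP.AliB
import Pool.Agent.H17.EP.Rule

set_option autoImplicit false

/-!
# Module SysOf (110 lines): the words give the dynamical system

PROOF. The structure `Sys` field by field; cases on `i : Bool` (`Bool.cond_true`, `cond_false`, simp). Abbreviate `S = suf d x t`,
`T = suf d y t`, `B = blk d t`, `P = pal d t`, `K' = 2 K2 + 3 K`. `hw.K0`, `hK2`.
* `p0, L0, w0`: `hw.nn`. `pInf`: `m_pal_tendsto`. `pStep`: `pal d (t+1) = B (d t) ++ P`, `hw.sup`. `LUp`, `LLo`, `q0`: `m_blk_le`,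
  `m_blk_ge`, `lastw_nn`. `qCon`: definition of `lastw` (`if d t = z`).
* `wLe`: `true`: `m_suffix` with `suf_suffix`. `false`: `T.reverse <+: (B (Y t)).reverse` (`List.reverse_prefix`), `m_prefix`,
  `m_blk_rev`.
* `wNo`: `rule_no` (for `x`, for `y`). `wEv`: `rule_ev`; `true`: `m S ≤ m (S ++ B) ≤ m S + m B + K`; `false`:
  `(T ++ B).reverse = B.reverse ++ T.reverse`, `m T.reverse ≤ … ≤ m B.reverse + m T.reverse + K ≤ m B + m T.reverse + 2 K`.
* `A0`: `hal S T P`: `pre_pal hx t`, `pre_pal hy t` with `pal_rev`.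
* `A1`, `true`: `d t = lvl d x t 0 ≠ lvl d y t 0`. `hal [] T (S ++ P)` with `pre_pal hx t` and `ali_one hy t`; `m [] = 0` (`m_nil`),
  `m S + m P ≤ m (S ++ P)`. `false`: `d t = lvl d y t 0 ≠ lvl d x t 0`: `hal S [] (T ++ P).reverse` with `ali_one hx t` (roles of
  `x, y` exchanged) and `(T ++ P).reverse.reverse = T ++ P` (`pre_pal hy t`); `(T ++ P).reverse = P ++ T.reverse` (`pal_rev`),
  `m P + m T.reverse ≤ m (P ++ T.reverse)`.
* `A2`: `ali_two hx hy t`: `hal [] [] W`, `W = S ++ (Q ++ T1)`: `ρ m W ≤ K2`, so `m W ≤ 2 K2` (`ρ > 1/2`, `m W ≥ 0`, if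
  `m W > 2 K2` then `ρ m W > K2`); `m S + m T1 ≤ m S + (m Q + m T1) ≤ m W`; `m T.reverse ≤ m T1 + 2 K` in both cases
  (`z :: T1 = [z] ++ T1`, `hw.let1`).
-/

namespace Pool.Agent.H17.EP

open Filter

variable {A : Type} {d x y : ℕ → A} {m : List A → ℝ} {K K2 ρ : ℝ}

theorem sys_of (hx : Iso d x) (hy : Iso d y) (hw : Wgt m K) (h1 : 1 / 2 < ρ) (h2 : ρ ≤ 1) (hK2 : 0 ≤ K2)
    (hal : Al m ρ K2 x y) :
    Sys d (fun i t => cond i (lvl d x t 0) (lvl d y t 0))
      (fun i t => cond i (m (suf d x t)) (m (suf d y t).reverse))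
      (fun t => m (pal d t)) (fun t z => m (blk d t z)) (fun t z => lastw m d t z) (2 * K2 + 3 * K) ρ := by
  have hK := hw.K0
  refine
    { rlo := h1
      rhi := h2
      K0 := by linarith
      p0 := fun t => hw.nn _
      pInf := m_pal_tendsto hw
      pStep := ?_
      L0 := fun t z => hw.nn _
      LUp := ?_
      LLo := ?_
      q0 := fun t z => lastw_nn hw t z
      qCon := ?_
      w0 := ?_
      wLe := ?_
      wNo := ?_
      wEv := ?_
      A0 := ?_
      A1 := ?_
      A2 := ?_ }
  · intro t
    have h := hw.sup (blk d t (d t)) (pal d t)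
    show m (pal d t) + m (blk d t (d t)) ≤ m (blk d t (d t) ++ pal d t)
    linarith
  · intro t z
    have h := m_blk_le (d := d) hw t z
    show m (blk d t z) ≤ m (pal d t) - lastw m d t z + (2 * K2 + 3 * K)
    linarith
  · intro t z
    have h := m_blk_ge (d := d) hw t z
    show m (pal d t) - lastw m d t z - (2 * K2 + 3 * K) ≤ m (blk d t z)
    linarith
  · intro t z h
    show lastw m d (t + 1) z = lastw m d t z
    rw [lastw, if_neg h]
  · intro i t
    cases i
    · exact hw.nn _
    · exact hw.nn _
  · intro i t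
    cases i
    · show m (suf d y t).reverse ≤ m (blk d t (lvl d y t 0)) + (2 * K2 + 3 * K)
      have h := List.reverse_prefix.mpr (suf_suffix (d := d) (x := y) t)
      have h3 := m_prefix hw h
      have h4 := m_blk_rev (d := d) hw t (lvl d y t 0)
      linarith
    · show m (suf d x t) ≤ m (blk d t (lvl d x t 0)) + (2 * K2 + 3 * K)
      have h3 := m_suffix hw (suf_suffix (d := d) (x := x) t)
      linarith
  · intro i t h
    cases i
    · obtain ⟨h3, h4⟩ := rule_no (d := d) (x := y) t h
      refine ⟨?_, h4⟩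
      show m (suf d y (t + 1)).reverse = m (suf d y t).reverse
      rw [h3]
    · obtain ⟨h3, h4⟩ := rule_no (d := d) (x := x) t h
      refine ⟨?_, h4⟩
      show m (suf d x (t + 1)) = m (suf d x t)
      rw [h3]
  · intro i t h
    cases i
    · rcases rule_ev (d := d) (x := y) t h with ⟨h3, h4⟩ | ⟨h3, h4⟩
      · left
        refine ⟨?_, h4⟩
        show m (suf d y (t + 1)).reverse = m (suf d y t).reverse
        rw [h3]
      · right
        refine ⟨h3, ?_, ?_⟩
        · show m (suf d y t).reverse ≤ m (suf d y (t + 1)).reverse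
          rw [h4, List.reverse_append]
          exact m_suffix hw (List.suffix_append _ _)
        · show m (suf d y (t + 1)).reverse ≤ m (suf d y t).reverse +
            m (blk d t (lvl d y (t + 1) 0)) + (2 * K2 + 3 * K)
          have h5 := m_blk_rev (d := d) hw t (lvl d y (t + 1) 0)
          have h6 := hw.sub (blk d t (lvl d y (t + 1) 0)).reverse (suf d y t).reverse
          rw [h4, List.reverse_append]
          linarith
    · rcases rule_ev (d := d) (x := x) t h with ⟨h3, h4⟩ | ⟨h3, h4⟩
      · left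
        refine ⟨?_, h4⟩
        show m (suf d x (t + 1)) = m (suf d x t)
        rw [h3]
      · right
        refine ⟨h3, ?_, ?_⟩
        · show m (suf d x t) ≤ m (suf d x (t + 1))
          rw [h4]
          exact m_prefix hw (List.prefix_append _ _)
        · show m (suf d x (t + 1)) ≤ m (suf d x t) +
            m (blk d t (lvl d x (t + 1) 0)) + (2 * K2 + 3 * K)
          have h6 := hw.sub (suf d x t) (blk d t (lvl d x (t + 1) 0))
          rw [h4]
          linarith
  · intro t
    show ρ * m (pal d t) ≤ m (suf d x t) + m (suf d y t).reverse + (2 * K2 + 3 * K)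
    have h := hal (suf d x t) (suf d y t) (pal d t) (pre_pal hx t)
      (by rw [pal_rev]; exact pre_pal hy t)
    linarith
  · intro i t h h'
    cases i
    · -- side `y`
      have e1 : d t = lvl d y t 0 := h
      have e2 : lvl d y t 0 ≠ lvl d x t 0 := h'
      show ρ * (m (pal d t) + m (suf d y t).reverse) ≤ m (suf d x t) + (2 * K2 + 3 * K)
      have hp := ali_one (x := y) (y := x) hx t e1.symm (by rw [e1]; exact e2.symm)
      have h3 := hal (suf d x t) [] (suf d y t ++ pal d t).reverse hp (by
        rw [List.reverse_reverse, List.nil_append]; exact pre_pal hy t)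
      have h4 := hw.sup (pal d t) (suf d y t).reverse
      rw [List.reverse_append, pal_rev, List.reverse_nil, m_nil hw] at h3
      have h5 : ρ * (m (pal d t) + m (suf d y t).reverse) ≤ ρ * m (pal d t ++ (suf d y t).reverse) :=
        mul_le_mul_of_nonneg_left h4 (by linarith)
      linarith
    · have e1 : d t = lvl d x t 0 := h
      have e2 : lvl d x t 0 ≠ lvl d y t 0 := h'
      show ρ * (m (pal d t) + m (suf d x t)) ≤ m (suf d y t).reverse + (2 * K2 + 3 * K)
      have hp := ali_one (x := x) (y := y) hy t e1.symm (by rw [e1]; exact e2.symm)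
      have h3 := hal [] (suf d y t) (suf d x t ++ pal d t) (by
        rw [List.nil_append]; exact pre_pal hx t) hp
      have h4 := hw.sup (suf d x t) (pal d t)
      rw [m_nil hw] at h3
      have h5 : ρ * (m (suf d x t) + m (pal d t)) ≤ ρ * m (suf d x t ++ pal d t) :=
        mul_le_mul_of_nonneg_left h4 (by linarith)
      linarith
  · intro t h
    have h' : lvl d x t 0 = lvl d y t 0 := h
    show m (suf d x t) + m (suf d y t).reverse ≤ 2 * K2 + 3 * K
    obtain ⟨Q, T1, ⟨z, hz⟩, hX, hY⟩ := ali_two hx hy t h'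
    have h3 := hal [] [] (suf d x t ++ (Q ++ T1)) (by rw [List.nil_append]; exact hX)
      (by rw [List.nil_append]; exact hY)
    rw [List.reverse_nil, m_nil hw] at h3
    have h4 := hw.nn (suf d x t ++ (Q ++ T1))
    have h5 : m (suf d x t ++ (Q ++ T1)) ≤ 2 * K2 := by
      nlinarith
    have h6 := hw.sup (suf d x t) (Q ++ T1)
    have h7 := hw.sup Q T1
    have h8 := hw.nn Q
    have h9 : m (suf d y t).reverse ≤ m T1 + 2 * K := by
      rcases hz with hz | hz
      · rw [hz]; linarith
      · rw [hz]
        have h10 := hw.sub [z] T1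
        have h11 := hw.let1 z
        rw [List.singleton_append] at h10
        linarith
    linarith

end Pool.Agent.H17.EP
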