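import Mathlib
import Pool.Agent.H17.EP.SysOf
import Pool.Agent.H17.EP.SysE
import Pool.Agent.H17.EP.RealSeq

set_option autoImplicit false

/-!
# The combinatorial core: some mirrored pair of words is long (proved from the modules)
-/

namespace Pool.Agent.H17.EP

open Filter

variable {A : Type} {d x y : ℕ → A} {m : List A → ℝ} {K K2 ρ : ℝ}

theorem core (hx : Iso d x) (hy : Iso d y) (hw : Wgt m K) (h1 : 1 / 2 < ρ) (h2 : ρ ≤ 1) (hK2 : 0 ≤ K2)
    (hal : Al m ρ K2 x y) : False := by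
  have hs := sys_of hx hy hw h1 h2 hK2 hal
  obtain ⟨P, S, T, Q, r1, r2, r3, r4, r5, r6, r7, r8⟩ := hs.regime
  exact real_seq h1 h2 (by have := hw.K0; linarith) r1 r2 r3 r4 r5 r6 r7 r8

end Pool.Agent.H17.EP
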