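import Mathlib
import Pool.Agent.H17.EP.WinL

set_option autoImplicit false

/-!
# Module EpA (80 lines): the separating letter of an episturmian sequence

PROOF. `Fac s [b, c] → Fac s [c, b]` (reversal). `Fac s [s k, s (k+1)]` for all `k` (`fac_lwin` with `n = 2`).
* `two_step`: if the letter `e = s (k+1)` is not left special then `s k = s (k+2)`: both `[s k, e]` and `[s (k+2), e]` are factors (the
  second by reversal of `[e, s (k+2)]`); if they were different, `LS s [e]`.
* `sep`, case 1: some letter `a` has `LS s [a]`; every other letter `e` is not left special (`Epi`: `[e]`, `[a]` have the same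
  length, so `[e] = [a]`). Suppose `s j ≠ a` and `s (j+1) ≠ a`. CLAIM: `s k ≠ a ∧ s (k+1) ≠ a` for all `k`. Forward from `k` to
  `k + 1`: `s (k+2) = s k ≠ a` (`two_step`, as `s (k+1) ≠ a`). Backward from `k + 1` to `k`: `s k = s (k+2) ≠ a`, because
  `s (k+1) ≠ a`. But `LS s [a]` contains `Fac s [b, a]`, so `a` occurs in `s`: contradiction.
* case 2: no letter is left special: `s k = s (k+2)` for all `k`; take `a = s 0`: by induction `s (2 n) = s 0`, and `j` or `j + 1` is
  even. (Or: show by induction on `j` that `s j = s 0 ∨ s (j+1) = s 0`.)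
-/

namespace Pool.Agent.H17.EP

variable {A : Type}

private lemma fac_two (s : ℕ → A) (k : ℕ) : Fac s [s k, s (k + 1)] :=
  ⟨k, by simp [lwin, List.range_succ]⟩

private lemma fac_two' {s : ℕ → A} (hs : Epi s) (k : ℕ) : Fac s [s (k + 1), s k] := by
  have h := hs.1 _ (fac_two s k)
  simpa using h

lemma two_step {s : ℕ → A} (hs : Epi s) (k : ℕ) (h : ¬ LS s [s (k + 1)]) : s k = s (k + 2) := by
  by_contra hne
  exact h ⟨s k, s (k + 2), hne, fac_two s k, fac_two' hs (k + 1)⟩

theorem sep {s : ℕ → A} (hs : Epi s) : ∃ a, Iso1 a s := by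
  classical
  by_cases hc : ∃ a, LS s [a]
  · obtain ⟨a, ha⟩ := hc
    refine ⟨a, ?_⟩
    have hn : ∀ e, e ≠ a → ¬ LS s [e] := by
      intro e he h
      have h1 := hs.2 [e] [a] rfl h ha
      exact he (by simpa using h1)
    intro j
    by_contra hj
    rw [not_or] at hj
    have hup : ∀ n, s (j + n) ≠ a ∧ s (j + n + 1) ≠ a := by
      intro n
      induction n with
      | zero => exact hj
      | succ n ih =>
        have h1 := two_step hs (j + n) (hn _ ih.2)
        refine ⟨ih.2, ?_⟩
        have h2 : j + (n + 1) + 1 = j + n + 2 := by omega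
        rw [h2, ← h1]
        exact ih.1
    have hdn : ∀ n, n ≤ j → s (j - n) ≠ a ∧ s (j - n + 1) ≠ a := by
      intro n
      induction n with
      | zero => exact fun _ => hj
      | succ n ih =>
        intro hn1
        have ih1 := ih (by omega)
        have e1 : j - (n + 1) + 1 = j - n := by omega
        have e2 : j - (n + 1) + 2 = j - n + 1 := by omega
        have h1 := two_step hs (j - (n + 1)) (by rw [e1]; exact hn _ ih1.1)
        rw [e1]
        refine ⟨?_, ih1.1⟩
        rw [h1, e2]
        exact ih1.2
    have hall : ∀ k, s k ≠ a := by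
      intro k
      rcases le_total j k with hk | hk
      · have h1 := (hup (k - j)).1
        rwa [show j + (k - j) = k by omega] at h1
      · have h1 := (hdn (j - k) (by omega)).1
        rwa [show j - (j - k) = k by omega] at h1
    obtain ⟨b, c, -, ⟨i, hi⟩, -⟩ := ha
    have h2 : s (i + 1) = a := by
      have h3 : lwin s i 2 = [b, a] := hi
      simp [lwin, List.range_succ] at h3
      exact h3.2
    exact hall _ h2
  · rw [not_exists] at hc
    refine ⟨s 0, fun j => ?_⟩
    induction j with
    | zero => exact Or.inl rfl
    | succ j ih =>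
      rcases ih with ih | ih
      · right
        rw [show j + 1 + 1 = j + 2 by omega, ← two_step hs j (hc _)]
        exact ih
      · exact Or.inl ih

end Pool.Agent.H17.EP
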