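import Mathlib
import Pool.Agent.H17.EP.StepA

set_option autoImplicit false

/-!
# Module EpB (130 lines): the kept letters of a word

`keepL a v`: the kept letters of the word `v`, its last letter serving only as the next letter.
PROOFS.
* `keepL_prefix`: induction on `v` (three cases of the definition), `v <+: v'`.
* `keepL_win`: induction on `k`, for all `n`. `k = 0`: `lwin x (phi n) 1 = [x (phi n)]`, `keepL = []`. `k + 1`: the word is
  `lwin x (phi n) (L + 2)`, `L + 2 = phi (n+1+k) - phi n + 1` (`phi_succ_bd`, `phi_mono`), it begins with `x (phi n)`, `x (phi n + 1)`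
  (`lwin_succ'` twice), and `phi n` is kept (`phi_kept`), so `keepL` gives `x (phi n) :: keepL a (lwin x (phi n + 1) (L+1))`. If
  `phi (n+1) = phi n + 1` apply the induction hypothesis for `n + 1`. If `phi (n+1) = phi n + 2`, then `phi n + 1` is dropped
  (`phi (n+1) = nxt (phi n + 1)`, unfold `nxt`), so `keepL a (lwin x (phi n + 1) (L+1)) = keepL a (lwin x (phi n + 2) L)` (here `L ≥ 1`
  because `L + 2 ≥ phi (n+1) - phi n + 1 = 3`), and the induction hypothesis applies. Result: `x (phi n) :: lwin (step a x) (n+1) k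
  = lwin (step a x) n (k+1)` (`lwin_succ'`).
* RANK: `Rk a x i n : i ≤ phi a x n ∧ ∀ m < n, phi a x m < i`. `rk_exists`: `Nat.find` for `{n | i ≤ phi n}` (`phi_ge`).
  `rk_kept`: if `Rk i n` and `i` is kept then `phi n = i` and `Rk (i+1) (n+1)`: suppose `phi n > i`; `n = 0`: `phi 0 = nxt 0 ≤ 1`, so
  `i = 0`, `phi 0 = 1`, index `0` dropped; `n = m + 1`: `phi m < i < phi (m+1) ≤ phi m + 2`, so `i = phi m + 1`,
  `nxt i = i + 1`, `i` dropped. `rk_drop`: if `i` is dropped then `phi n ≠ i` (`phi_kept`), so `Rk (i+1) n`.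
* `keepL_any`: `Rk i n → ∃ k, keepL a (lwin x i (L+1)) = lwin (step a x) n k`, induction on `L`, for all `i, n`: `L = 0`: `k = 0`. `L + 1`:
  unfold by `lwin_succ'` twice; dropped: induction hypothesis for `i + 1, n`; kept: for `i + 1, n + 1`, and `x i = step a x n`.
* `fac_keep`: `v = lwin s i v.length`; `v = []` trivial; `v.length = L + 1`: `keepL_any`, `fac_lwin`.
-/

namespace Pool.Agent.H17.EP

variable {A : Type}

open Classical in
/-- The kept letters of a word (the last letter is only used as the next letter of the one before it). -/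
noncomputable def keepL (a : A) : List A → List A
  | [] => []
  | [_] => []
  | c :: c' :: l => if c = a ∧ c' ≠ a then keepL a (c' :: l) else c :: keepL a (c' :: l)

private lemma keepL_nil (a : A) : keepL a [] = [] := by
  rw [keepL]

private lemma keepL_one (a c : A) : keepL a [c] = [] := by
  rw [keepL]

open Classical in
private lemma keepL_cons (a c c' : A) (l : List A) : keepL a (c :: c' :: l) =
    if c = a ∧ c' ≠ a then keepL a (c' :: l) else c :: keepL a (c' :: l) := by
  rw [keepL]

lemma keepL_prefix (a : A) {v v' : List A} (h : v <+: v') : keepL a v <+: keepL a v' := by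
  induction v generalizing v' with
  | nil => rw [keepL_nil]; exact List.nil_prefix
  | cons c v ih =>
    cases v with
    | nil => rw [keepL_one]; exact List.nil_prefix
    | cons c' l =>
      obtain ⟨t, rfl⟩ := h
      have h2 := ih (v' := c' :: (l ++ t)) ⟨t, rfl⟩
      rw [List.cons_append, List.cons_append, keepL_cons, keepL_cons]
      by_cases hc : c = a ∧ c' ≠ a
      · rw [if_pos hc, if_pos hc]
        exact h2
      · rw [if_neg hc, if_neg hc]
        obtain ⟨r, hr⟩ := h2
        exact ⟨r, by rw [List.cons_append, hr]⟩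

private lemma keepL_lwin_drop (a : A) (x : ℕ → A) (i L : ℕ) (h : x i = a ∧ x (i + 1) ≠ a) :
    keepL a (lwin x i (L + 2)) = keepL a (lwin x (i + 1) (L + 1)) := by
  rw [lwin_succ' x i (L + 1), lwin_succ' x (i + 1) L, keepL_cons, if_pos h]

private lemma keepL_lwin_keep (a : A) (x : ℕ → A) (i L : ℕ) (h : ¬ (x i = a ∧ x (i + 1) ≠ a)) :
    keepL a (lwin x i (L + 2)) = x i :: keepL a (lwin x (i + 1) (L + 1)) := by
  rw [lwin_succ' x i (L + 1), lwin_succ' x (i + 1) L, keepL_cons, if_neg h]

private lemma nxt_drop (a : A) (x : ℕ → A) (j : ℕ) (h : nxt a x j = j + 1) :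
    x j = a ∧ x (j + 1) ≠ a := by
  by_contra hc
  rw [nxt, if_neg hc] at h
  omega

lemma keepL_win (a : A) (x : ℕ → A) (n k : ℕ) :
    keepL a (lwin x (phi a x n) (phi a x (n + k) - phi a x n + 1)) = lwin (step a x) n k := by
  induction k generalizing n with
  | zero =>
    have e0 : phi a x (n + 0) - phi a x n + 1 = 1 := by simp
    rw [e0, lwin_one, keepL_one, lwin_zero]
  | succ k ih =>
    have h1 := phi_succ_bd (a := a) (x := x) n
    have h2 : phi a x (n + 1) ≤ phi a x (n + 1 + k) := phi_mono (Nat.le_add_right _ _)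
    have e : n + (k + 1) = n + 1 + k := by ring
    have ih' := ih (n + 1)
    rw [e, lwin_succ' (step a x) n k]
    obtain ⟨L, hL⟩ : ∃ L, phi a x (n + 1 + k) - phi a x n = L + 1 :=
      ⟨phi a x (n + 1 + k) - phi a x n - 1, by omega⟩
    rw [hL, keepL_lwin_keep a x _ L (phi_kept n)]
    have e2 : step a x n = x (phi a x n) := rfl
    rw [e2]
    congr 1
    rcases Nat.lt_or_ge (phi a x (n + 1)) (phi a x n + 2) with h3 | h3
    · have h4 : phi a x (n + 1) = phi a x n + 1 := by omega
      have h5 : phi a x (n + 1 + k) - phi a x (n + 1) + 1 = L + 1 := by omega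
      rw [h5, h4] at ih'
      exact ih'
    · have h4 : phi a x (n + 1) = phi a x n + 1 + 1 := by omega
      have h6 : nxt a x (phi a x n + 1) = phi a x n + 1 + 1 := h4
      obtain ⟨L', rfl⟩ : ∃ L', L = L' + 1 := ⟨L - 1, by omega⟩
      have h5 : phi a x (n + 1 + k) - phi a x (n + 1) + 1 = L' + 1 := by omega
      rw [h5, h4] at ih'
      rw [keepL_lwin_drop a x _ L' (nxt_drop a x _ h6)]
      exact ih'

private def Rk (a : A) (x : ℕ → A) (i n : ℕ) : Prop :=
  i ≤ phi a x n ∧ ∀ m < n, phi a x m < i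

private lemma rk_exists (a : A) (x : ℕ → A) (i : ℕ) : ∃ n, Rk a x i n := by
  classical
  have h : ∃ n, i ≤ phi a x n := ⟨i, phi_ge i⟩
  exact ⟨Nat.find h, Nat.find_spec h, fun m hm => Nat.lt_of_not_le (Nat.find_min h hm)⟩

private lemma rk_kept (a : A) (x : ℕ → A) (i n : ℕ) (h : Rk a x i n)
    (hi : ¬ (x i = a ∧ x (i + 1) ≠ a)) : phi a x n = i ∧ Rk a x (i + 1) (n + 1) := by
  have h1 : phi a x n = i := by
    by_contra hne
    have hlt : i < phi a x n := lt_of_le_of_ne h.1 (Ne.symm hne)
    cases n with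
    | zero =>
      have e : phi a x 0 = nxt a x 0 := rfl
      have h2 := (nxt_bd (a := a) (x := x) 0).2
      have h3 : i = 0 := by omega
      subst h3
      exact hi (nxt_drop a x 0 (by omega))
    | succ m =>
      have h2 := phi_succ_bd (a := a) (x := x) m
      have h3 := h.2 m (Nat.lt_succ_self m)
      have h4 : i = phi a x m + 1 := by omega
      have h5 : nxt a x (phi a x m + 1) = phi a x (m + 1) := rfl
      refine hi ?_
      rw [h4]
      refine nxt_drop a x _ ?_
      omega
  refine ⟨h1, ?_, ?_⟩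
  · have h2 := (phi_succ_bd (a := a) (x := x) n).1
    omega
  · intro m hm
    have h2 : phi a x m ≤ phi a x n := phi_mono (Nat.le_of_lt_succ hm)
    omega

private lemma rk_drop (a : A) (x : ℕ → A) (i n : ℕ) (h : Rk a x i n)
    (hi : x i = a ∧ x (i + 1) ≠ a) : Rk a x (i + 1) n := by
  have h1 : phi a x n ≠ i := by
    intro he
    refine phi_kept (a := a) (x := x) n ?_
    rw [he]
    exact hi
  refine ⟨?_, fun m hm => ?_⟩
  · have h2 := h.1
    omega
  · have h2 := h.2 m hm
    omega

private lemma keepL_aux (a : A) (x : ℕ → A) (L : ℕ) : ∀ i n, Rk a x i n →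
    ∃ k, keepL a (lwin x i (L + 1)) = lwin (step a x) n k := by
  induction L with
  | zero =>
    intro i n _
    exact ⟨0, by rw [Nat.zero_add, lwin_one, keepL_one, lwin_zero]⟩
  | succ L ih =>
    intro i n h
    by_cases hi : x i = a ∧ x (i + 1) ≠ a
    · obtain ⟨k, hk⟩ := ih (i + 1) n (rk_drop a x i n h hi)
      exact ⟨k, by rw [keepL_lwin_drop a x i L hi, hk]⟩
    · obtain ⟨h1, h2⟩ := rk_kept a x i n h hi
      obtain ⟨k, hk⟩ := ih (i + 1) (n + 1) h2
      refine ⟨k + 1, ?_⟩
      rw [keepL_lwin_keep a x i L hi, hk, lwin_succ' (step a x) n k]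
      have e2 : step a x n = x (phi a x n) := rfl
      rw [e2, h1]

lemma keepL_any (a : A) (x : ℕ → A) (L i : ℕ) :
    ∃ n k, keepL a (lwin x i (L + 1)) = lwin (step a x) n k := by
  obtain ⟨n, hn⟩ := rk_exists a x i
  obtain ⟨k, hk⟩ := keepL_aux a x L i n hn
  exact ⟨n, k, hk⟩

lemma fac_keep (a : A) {s : ℕ → A} {v : List A} (h : Fac s v) : Fac (step a s) (keepL a v) := by
  obtain ⟨i, hi⟩ := h
  cases v with
  | nil => rw [keepL_nil]; exact ⟨0, rfl⟩
  | cons c l =>
    rw [← hi]
    obtain ⟨n, k, hk⟩ := keepL_any a s l.length i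
    have e : (c :: l).length = l.length + 1 := rfl
    rw [e, hk]
    exact fac_lwin _ _ _

end Pool.Agent.H17.EP
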