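import Mathlib
import Pool.Agent.H17.EP.EpB

set_option autoImplicit false

/-!
# Module EpC (120 lines): the substitution `z ↦ a z` (`z ≠ a`), `a ↦ a`

PROOFS.
* `keep_tau`: induction on `u`. `[]`: `keepL a [a] = []`. `z :: u'`: `tau a u' ++ [a]` begins with `a`: it is `a :: l` (`tau_head`: cases
  on `u'`). `z = a`: `keepL a (a :: a :: l) = a :: keepL a (a :: l)`. `z ≠ a`: `keepL a (a :: z :: a :: l) = keepL a (z :: a :: l)
  = z :: keepL a (a :: l)`.
* `tau_rev`: induction on `u`: `tau a (z :: u') ++ [a] = τ z ++ (tau a u' ++ [a])`, `τ z = [a]` or `[a, z]`; its reverse is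
  `tau a u'.reverse ++ ([a] ++ (τ z).reverse)` and `[a] ++ (τ z).reverse = τ z ++ [a]` in both cases.
* `tau_win`: `blocks` with `f z = [z]` (`f' z = if z = a then [z] else [a] ++ [z]` is the function of `tau`), and `after_kept`
  for the last letter: `lwin_succ`.
* `fac_tau`, direction `←`: `fac_keep` and `keep_tau`. Direction `→`: `u = lwin (step a s) n k`.
  - `k = 0`: `tau a [] ++ [a] = [a]` is a factor because `s 0 = a ∨ s 1 = a`.
  - `n = m + 1`: `tau_win`, `fac_lwin`.
  - `n = 0`, `k = k' + 1`: `u = z :: u'`, `z = s (phi 0)`, `u' = lwin (step a s) 1 k'`, `tau a u' ++ [a] = lwin s (phi 0 + 1) l` by `tau_win`.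
    If `z = a`: `tau a u ++ [a] = a :: (tau a u' ++ [a]) = lwin s (phi 0) (l+1)`. If `z ≠ a` and `phi 0 = 1` (index `0` dropped, so
    `s 0 = a`): `tau a u ++ [a] = a :: z :: … = lwin s 0 (l+2)`. If `z ≠ a` and `phi 0 = 0`: `z :: (tau a u' ++ [a]) = lwin s 0 (l+1)` is a
    factor, hence also its reverse `tau a u'.reverse ++ [a] ++ [z] = tau a u.reverse` (`tau_rev`), say at the position `i`; the next letter
    is `a` because `z ≠ a` and `Iso1 a s`, so `tau a u.reverse ++ [a]` is a factor, and its reverse is `tau a u ++ [a]` (`tau_rev`).
-/

namespace Pool.Agent.H17.EP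

variable {A : Type}

open Classical in
/-- The substitution `z ↦ a z` for `z ≠ a`, `a ↦ a`. -/
noncomputable def tau (a : A) (u : List A) : List A := u.flatMap (fun z => if z = a then [z] else [a] ++ [z])

private lemma tau_nil (a : A) : tau a [] = [] := rfl

open Classical in
private lemma tau_cons (a z : A) (u : List A) :
    tau a (z :: u) = (if z = a then [z] else [a] ++ [z]) ++ tau a u := by
  unfold tau
  rw [List.flatMap_cons]

private lemma tau_app (a : A) (u v : List A) : tau a (u ++ v) = tau a u ++ tau a v := by
  unfold tau
  rw [List.flatMap_append]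

private lemma tau_head (a : A) (u : List A) : ∃ l, tau a u ++ [a] = a :: l := by
  cases u with
  | nil => exact ⟨[], rfl⟩
  | cons z u =>
    rw [tau_cons]
    by_cases h : z = a
    · rw [if_pos h, h]
      exact ⟨tau a u ++ [a], rfl⟩
    · rw [if_neg h]
      exact ⟨z :: (tau a u ++ [a]), rfl⟩

open Classical in
private lemma keepL_cc (a c c' : A) (l : List A) : keepL a (c :: c' :: l) =
    if c = a ∧ c' ≠ a then keepL a (c' :: l) else c :: keepL a (c' :: l) := by
  rw [keepL]

lemma keep_tau (a : A) (u : List A) : keepL a (tau a u ++ [a]) = u := by
  induction u with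
  | nil =>
    rw [tau_nil, List.nil_append, keepL]
  | cons z u ih =>
    obtain ⟨l, hl⟩ := tau_head a u
    rw [tau_cons, List.append_assoc, hl]
    rw [hl] at ih
    by_cases h : z = a
    · rw [if_pos h, h, List.singleton_append, keepL_cc, if_neg (fun h1 => h1.2 rfl), ih]
    · rw [if_neg h]
      have e : ([a] ++ [z]) ++ a :: l = a :: z :: a :: l := rfl
      rw [e, keepL_cc, if_pos ⟨rfl, h⟩, keepL_cc, if_neg (fun h1 => h h1.1), ih]

lemma tau_rev (a : A) (u : List A) : (tau a u ++ [a]).reverse = tau a u.reverse ++ [a] := by
  induction u with
  | nil => rfl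
  | cons z u ih =>
    rw [tau_cons, List.append_assoc, List.reverse_append, ih, List.reverse_cons, tau_app, tau_cons, tau_nil,
      List.append_nil]
    by_cases h : z = a
    · rw [if_pos h, h]
      simp
    · rw [if_neg h]
      simp

lemma tau_win {a : A} {x : ℕ → A} (hx : Iso1 a x) (m n : ℕ) :
    tau a (lwin (step a x) (m + 1) n) ++ [a] = lwin x (phi a x m + 1) (phi a x (m + n) - phi a x m + 1) := by
  classical
  have h1 := blocks hx (fun z : A => [z]) m n
  have h2 : tau a (lwin (step a x) (m + 1) n) =
      (lwin (step a x) (m + 1) n).flatMap (fun z => if z = a then [z] else [a] ++ [z]) := by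
    unfold tau
    congr 1
  have h3 : phi a x m ≤ phi a x (m + n) := phi_mono (by omega)
  have h4 : phi a x m + 1 + (phi a x (m + n) - phi a x m) = phi a x (m + n) + 1 := by omega
  have h5 : ∀ l : List A, l.flatMap (fun z : A => [z]) = l := by
    intro l
    induction l with
    | nil => rfl
    | cons c l ih => rw [List.flatMap_cons, ih]; rfl
  rw [h2, h1, h5, lwin_succ, h4, after_kept hx]

lemma fac_tau {a : A} {s : ℕ → A} (hs : Iso1 a s) (hr : ∀ u : List A, Fac s u → Fac s u.reverse)
    (u : List A) : Fac (step a s) u ↔ Fac s (tau a u ++ [a]) := by
  constructor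
  · rintro ⟨n, hn⟩
    cases u with
    | nil =>
      rw [tau_nil, List.nil_append]
      rcases hs 0 with h | h
      · have h1 := fac_lwin s 0 1
        rw [lwin_one, h] at h1
        exact h1
      · have h1 := fac_lwin s 1 1
        rw [lwin_one] at h1
        have e : s 1 = a := h
        rw [e] at h1
        exact h1
    | cons z u =>
      cases n with
      | succ m =>
        have h1 := tau_win hs m (z :: u).length
        rw [hn] at h1
        rw [h1]
        exact fac_lwin _ _ _
      | zero =>
        have e0 : (z :: u).length = u.length + 1 := rfl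
        rw [e0, lwin_succ'] at hn
        have hz : step a s 0 = z := (List.cons.inj hn).1
        have hu : lwin (step a s) 1 u.length = u := (List.cons.inj hn).2
        have h1 := tau_win hs 0 u.length
        rw [Nat.zero_add, hu] at h1
        have hz' : s (phi a s 0) = z := hz
        have hdef : phi a s 0 = nxt a s 0 := rfl
        by_cases hza : z = a
        · have e : tau a (z :: u) ++ [a] = a :: (tau a u ++ [a]) := by
            rw [tau_cons, if_pos hza, hza]
            rfl
          have h2 := lwin_succ' s (phi a s 0) (phi a s (0 + u.length) - phi a s 0 + 1)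
          rw [hz', hza, ← h1, ← e] at h2
          rw [← h2]
          exact fac_lwin _ _ _
        · have e : tau a (z :: u) ++ [a] = a :: z :: (tau a u ++ [a]) := by
            rw [tau_cons, if_neg hza]
            rfl
          unfold nxt at hdef
          split_ifs at hdef with h0
          · have hz1 : s 1 = z := by
              rw [hdef] at hz'
              exact hz'
            rw [hdef] at h1
            rw [e, h1, ← hz1, ← lwin_succ' s (0 + 1), ← h0.1, ← lwin_succ' s 0]
            exact fac_lwin _ _ _
          · have hz0 : s 0 = z := by
              rw [hdef] at hz'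
              exact hz'
            rw [hdef] at h1
            have h2 : Fac s (z :: (tau a u ++ [a])) := by
              rw [h1, ← hz0, ← lwin_succ' s 0]
              exact fac_lwin _ _ _
            have h3 := hr _ h2
            have e3 : (z :: (tau a u ++ [a])).reverse = tau a (z :: u).reverse := by
              rw [List.reverse_cons, tau_rev, List.reverse_cons, tau_app, tau_cons, tau_nil, if_neg hza]
              simp
            rw [e3] at h3
            obtain ⟨i, hi⟩ := h3
            have hne : tau a (z :: u).reverse = (tau a u.reverse ++ [a]) ++ [z] := by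
              rw [List.reverse_cons, tau_app, tau_cons, tau_nil, if_neg hza]
              simp
            have hlen : (tau a (z :: u).reverse).length = (tau a u.reverse ++ [a]).length + 1 := by
              rw [hne]
              simp
            have hlast : s (i + (tau a u.reverse ++ [a]).length) = z := by
              rw [hlen, lwin_succ, hne] at hi
              have h6 := (List.append_inj hi (by simp)).2
              exact (List.cons.inj h6).1
            have hnext : s (i + (tau a (z :: u).reverse).length) = a := by
              rcases hs (i + (tau a u.reverse ++ [a]).length) with h7 | h7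
              · rw [hlast] at h7
                exact absurd h7 hza
              · rw [hlen]
                exact h7
            have h8 : Fac s (tau a (z :: u).reverse ++ [a]) := by
              have h9 := fac_lwin s i ((tau a (z :: u).reverse).length + 1)
              rw [lwin_succ, hi, hnext] at h9
              exact h9
            have h10 := hr _ h8
            rw [tau_rev, List.reverse_reverse] at h10
            exact h10
  · intro h
    have h1 := fac_keep a h
    rw [keep_tau] at h1
    exact h1

end Pool.Agent.H17.EP
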