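import Mathlib
import Pool.Agent.H17.EP.EpC

set_option autoImplicit false

/-!
# Module EpD (60 lines): the derived sequence of an episturmian sequence is episturmian

PROOF.
* `ls_prefix`: if `v <+: v'` and `LS s v'` then `LS s v` (`fac_infix`; `b :: v <+: b :: v'`).
* `ls_tau`: `LS (step a s) u → LS s (tau a u ++ [a])`: `b ≠ c`, `Fac (step a s) (b :: u)` gives `Fac s (tau a (b :: u) ++ [a])` (`fac_tau`), and
  `b :: (tau a u ++ [a])` is a suffix of this word (`tau a (b :: u) = (if b = a then [b] else [a] ++ [b]) ++ tau a u`), `fac_infix`.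
* `epi_step`: reversal: `Fac (step a s) u → Fac s (tau a u ++ [a]) → Fac s (tau a u.reverse ++ [a])` (`tau_rev`) `→ Fac (step a s) u.reverse`.
  Left special `u, v` of the same length; let `U = tau a u ++ [a]`, `V = tau a v ++ [a]`, say `U.length ≤ V.length` (the other case is
  symmetric). `V.take U.length` is left special (`ls_prefix`) and has the length of `U`, so it is `U` and `U <+: V`. By
  `keepL_prefix` and `keep_tau`: `u <+: v`, so `u = v` (`List.IsPrefix.eq_of_length`).
-/

namespace Pool.Agent.H17.EP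

variable {A : Type}

lemma ls_prefix {s : ℕ → A} {v v' : List A} (h : v <+: v') (h' : LS s v') : LS s v := by
  obtain ⟨b, c, hbc, h1, h2⟩ := h'
  refine ⟨b, c, hbc, fac_infix h1 ?_, fac_infix h2 ?_⟩
  · exact (List.cons_prefix_cons.2 ⟨rfl, h⟩).isInfix
  · exact (List.cons_prefix_cons.2 ⟨rfl, h⟩).isInfix

private lemma tau_cons_suffix (a b : A) (u : List A) :
    b :: (tau a u ++ [a]) <:+ tau a (b :: u) ++ [a] := by
  classical
  unfold tau
  rw [List.flatMap_cons]
  split_ifs with h
  · exact List.suffix_refl _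
  · exact ⟨[a], rfl⟩

lemma ls_tau {a : A} {s : ℕ → A} (hs : Iso1 a s) (hr : ∀ u : List A, Fac s u → Fac s u.reverse)
    {u : List A} (h : LS (step a s) u) : LS s (tau a u ++ [a]) := by
  obtain ⟨b, c, hbc, h1, h2⟩ := h
  have e1 := (fac_tau hs hr (b :: u)).1 h1
  have e2 := (fac_tau hs hr (c :: u)).1 h2
  exact ⟨b, c, hbc, fac_infix e1 (tau_cons_suffix a b u).isInfix,
    fac_infix e2 (tau_cons_suffix a c u).isInfix⟩

private lemma epi_le {a : A} {s : ℕ → A} (hs : Epi s) (ha : Iso1 a s) {u v : List A}
    (hl : u.length = v.length) (hu : LS (step a s) u) (hv : LS (step a s) v)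
    (hle : (tau a u ++ [a]).length ≤ (tau a v ++ [a]).length) : u = v := by
  have hU := ls_tau ha hs.1 hu
  have hV := ls_tau ha hs.1 hv
  set U := tau a u ++ [a] with hUd
  set V := tau a v ++ [a] with hVd
  have h1 : LS s (V.take U.length) := ls_prefix (List.take_prefix _ _) hV
  have h2 : U = V.take U.length := by
    refine hs.2 U (V.take U.length) ?_ hU h1
    rw [List.length_take, min_eq_left hle]
  have h3 : U <+: V := by
    rw [h2]
    exact List.take_prefix _ _
  have h4 := keepL_prefix a h3
  rw [hUd, hVd, keep_tau, keep_tau] at h4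
  exact h4.eq_of_length hl

theorem epi_step {a : A} {s : ℕ → A} (hs : Epi s) (ha : Iso1 a s) : Epi (step a s) := by
  refine ⟨fun u hu => ?_, fun u v hl hu hv => ?_⟩
  · have h1 := (fac_tau ha hs.1 u).1 hu
    have h2 := hs.1 _ h1
    rw [tau_rev] at h2
    exact (fac_tau ha hs.1 u.reverse).2 h2
  · rcases le_total (tau a u ++ [a]).length (tau a v ++ [a]).length with h | h
    · exact epi_le hs ha hl hu hv h
    · exact (epi_le hs ha hl.symm hv hu h).symm

end Pool.Agent.H17.EP
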