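import Mathlib
import Pool.Agent.H17.EP.EpA
import Pool.Agent.H17.EP.EpD

set_option autoImplicit false

/-!
# Module EpE (80 lines): the directive sequence

PROOFS.
* `dir_exists`: define by recursion (`Nat.rec`) `σ : ℕ → {s // Epi s}`, `σ 0 = ⟨s, hs⟩`, `σ (t+1) = ⟨step a (σ t), epi_step …⟩` with
  `a = Classical.choose (sep (σ t).2)`; put `d t = Classical.choose (sep (σ t).2)`. By induction `lvl d s t = (σ t).1`.
* `fac_lvl`: induction on `t`, for `ρ = lvl d x t`, `σ = lvl d s t`, `a = d t`. A factor `u` of `step a ρ` is `lwin (step a ρ) n k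
  = keepL a (lwin ρ (phi n) (…))` (`keepL_win`); the window is a factor of `ρ`, hence of `σ`, and `fac_keep`.
* `iso_of_fac`: `[ρ j, ρ (j+1)]` is a factor of `ρ`, hence of `σ`: `ρ j = σ i`, `ρ (j+1) = σ (i+1)`, and `Iso1 a σ`.
-/

namespace Pool.Agent.H17.EP

variable {A : Type}

theorem dir_exists {s : ℕ → A} (hs : Epi s) : ∃ d : ℕ → A, Iso d s := by
  classical
  let σ : ℕ → {s : ℕ → A // Epi s} := fun t => Nat.rec ⟨s, hs⟩
    (fun _ r => ⟨step (Classical.choose (sep r.2)) r.1,
      epi_step r.2 (Classical.choose_spec (sep r.2))⟩) t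
  let d : ℕ → A := fun t => Classical.choose (sep (σ t).2)
  have hσ : ∀ t, lvl d s t = (σ t).1 := by
    intro t
    induction t with
    | zero => rfl
    | succ t ih =>
      show step (d t) (lvl d s t) = (σ (t + 1)).1
      rw [ih]
  refine ⟨d, fun t => ?_⟩
  rw [hσ t]
  exact Classical.choose_spec (sep (σ t).2)

lemma fac_lvl {d s x : ℕ → A} (hx : ∀ u, Fac x u → Fac s u) (t : ℕ) :
    ∀ u, Fac (lvl d x t) u → Fac (lvl d s t) u := by
  induction t with
  | zero => exact hx
  | succ t ih =>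
    intro u hu
    change Fac (step (d t) (lvl d x t)) u at hu
    show Fac (step (d t) (lvl d s t)) u
    obtain ⟨i, hi⟩ := hu
    have h1 := keepL_win (d t) (lvl d x t) i u.length
    rw [hi] at h1
    have h2 := fac_keep (d t) (ih _ (fac_lwin (lvl d x t) (phi (d t) (lvl d x t) i)
      (phi (d t) (lvl d x t) (i + u.length) - phi (d t) (lvl d x t) i + 1)))
    rwa [h1] at h2

theorem iso_of_fac {d s x : ℕ → A} (hs : Iso d s) (hx : ∀ u, Fac x u → Fac s u) : Iso d x := by
  intro t j
  obtain ⟨i, hi⟩ := fac_lvl hx t _ (fac_lwin (lvl d x t) j 2)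
  rw [lwin_length] at hi
  have e : ∀ (y : ℕ → A) (k : ℕ), lwin y k 2 = [y k, y (k + 1)] := by
    intro y k
    simp [lwin, List.range_succ]
  rw [e, e] at hi
  simp only [List.cons.injEq, and_true] at hi
  rcases hs t i with h | h
  · left
    rw [← hi.1]
    exact h
  · right
    rw [← hi.2]
    exact h

end Pool.Agent.H17.EP
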