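import Mathlib
import Pool.Agent.H17.EP.Core
import Pool.Agent.H17.EP.Crit
import Pool.Agent.H17.EP.EpE

set_option autoImplicit false

/-!
# Littlewood with power gain for all episturmian pairs (proved from the modules)
-/

namespace Pool.Agent.H17.EP

open Filter Pool.Agent.H2.MC Pool.Agent.H2.Sturm

/-- Positivity of all partial quotients from the positivity of the late ones. -/
lemma ppos_late {x : ℝ} {k : ℕ} (h : ∀ i, k ≤ i → 0 < pq x i) (n : ℕ) : 0 < pq x n := by
  have h1 : ∀ i, 0 < cfDigit x (k + 1 + i) := by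
    intro i
    have e : k + 1 + i = (k + i) + 1 := by omega
    rw [e, cfDigit_pq]
    exact_mod_cast h (k + i) (by omega)
  have h2 := one_lt_cq h1 n
  have h3 : cfDigit x (n + 1) = (pq x n : ℤ) := cfDigit_pq x n
  rw [cfDigit_eq] at h3
  have h4 : (1 : ℤ) ≤ ⌊cq x (n + 1)⌋ := by rw [Int.le_floor]; push_cast; exact h2.le
  rw [h3] at h4
  exact_mod_cast h4

/-- A larger exponent is better. -/
lemma pl_mono {c c' α β : ℝ} (h : PowerLittlewood c' α β) (hc : c ≤ c') : PowerLittlewood c α β := by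
  intro ε hε N
  obtain ⟨q, hqN, hq0, hq⟩ := h ε hε N
  refine ⟨q, hqN, hq0, lt_of_le_of_lt ?_ hq⟩
  have h1 : (1 : ℝ) ≤ q := by exact_mod_cast hq0
  have h2 : (q : ℝ) ^ (1 + c) ≤ (q : ℝ) ^ (1 + c') := Real.rpow_le_rpow_of_exponent_le h1 (by linarith)
  gcongr

/-- A sequence which is a product of nonempty words of positive integers from the index `i` on is positive
from there on. -/
lemma reads_pos {A : Type} {b : ℕ → ℕ} {i : ℕ} {f : A → List ℕ} {x : ℕ → A} (h : Reads b i f x)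
    (hf0 : ∀ z, f z ≠ []) (hf : ∀ z, ∀ e ∈ f z, 0 < e) (n : ℕ) (hn : i ≤ n) : 0 < b n := by
  have h1 := h (n - i + 1)
  have h2 := flatMap_len x f hf0 0 (n - i + 1)
  have h3 : b n ∈ win b i ((lwin x 0 (n - i + 1)).flatMap f).length := by
    unfold win
    rw [List.mem_map]
    exact ⟨n - i, List.mem_range.2 (by omega), by congr 1; omega⟩
  rw [h1, List.mem_flatMap] at h3
  obtain ⟨z, -, hz⟩ := h3
  exact hf z _ hz

theorem main {A : Type} {s x y : ℕ → A} (hs : Epi s) (hx : ∀ u, Fac x u → Fac s u)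
    (hy : ∀ u, Fac y u → Fac s u) {f : A → List ℕ} (hf : (Set.range f).Finite) (hf0 : ∀ z, f z ≠ [])
    (hfp : ∀ z, ∀ e ∈ f z, 0 < e) {α β : ℝ} {i0 j0 : ℕ} (hα : Reads (pq α) i0 f x)
    (hβ : Reads (pq β) j0 (fun z => (f z).reverse) y) {c : ℝ} (hc : c < 1 / 3) : PowerLittlewood c α β := by
  by_contra hfail
  have hfail' : ¬ PowerLittlewood (max c 0) α β := fun h => hfail (pl_mono h (le_max_left _ _))
  have hc0 : 0 ≤ max c 0 := le_max_right _ _
  have hc3 : max c 0 < 1 / 3 := max_lt hc (by norm_num)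
  have hα0 : ∀ n, 0 < pq α n := ppos_late (k := i0) (reads_pos hα hf0 hfp)
  have hβ0 : ∀ n, 0 < pq β n := ppos_late (k := j0) (reads_pos hβ (fun z => by simpa using hf0 z)
    (fun z e he => hfp z e (by simpa using he)))
  obtain ⟨d, hd⟩ := dir_exists hs
  obtain ⟨M, hM0, hM⟩ := bdd_wt hf
  have hw := wgt_wt hf0 hM0 hM
  obtain ⟨K2, hK2, hal⟩ := al_of_fail hα0 hβ0 hα hβ hc0 (by linarith) hfail'
  refine core (iso_of_fac hd hx) (iso_of_fac hd hy) hw ?_ ?_ hK2 hal
  · rw [lt_div_iff₀ (by linarith)]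
    linarith
  · rw [div_le_one (by linarith)]
    linarith

end Pool.Agent.H17.EP
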